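import Pool.Agent.Lib.MP_ef2672_gt_Tauber.Expurgate

/-!
Hermite's constant with some short vectors ignored, and counts of short vectors.
-/

namespace Pool.Agent.Lib.MP_ef2672_gt_Tauber

open Filter Topology

/-- The `(K+1)`-st smallest squared length of a nonzero vector of the lattice `A ℤⁿ`
(counted with multiplicity): the supremum of all `r` such that at most `K` nonzero vectors
have squared length less than `r`. -/
noncomputable def minSqK {n : ℕ} (K : ℕ) (A : Matrix (Fin n) (Fin n) ℝ) : ℝ :=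
  sSup {r : ℝ | nShort A r ≤ K}

/-- Hermite's constant with the `K` shortest nonzero vectors of each lattice ignored. -/
noncomputable def gammaK (K n : ℕ) : ℝ :=
  ⨆ A : {A : Matrix (Fin n) (Fin n) ℝ // A.det ≠ 0}, minSqK K A.1 / |A.1.det| ^ ((2 : ℝ) / (n : ℝ))

lemma mem_le {n K : ℕ} (hn : 0 < n) (A : Matrix (Fin n) (Fin n) ℝ) (hA : A.det ≠ 0) {r : ℝ}
    (hr : nShort A r ≤ K) :
    r ≤ gamma n * (|A.det| * (max 1 K : ℕ)) ^ ((2 : ℝ) / n) := by
  refine (expurgate hn A hA r).trans ?_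
  refine mul_le_mul_of_nonneg_left ?_ (gamma_nonneg n)
  refine Real.rpow_le_rpow (by positivity) ?_ (by positivity)
  refine mul_le_mul_of_nonneg_left ?_ (abs_nonneg _)
  exact_mod_cast max_le_max le_rfl hr

lemma nShort_minSq {n : ℕ} (A : Matrix (Fin n) (Fin n) ℝ) : nShort A (minSq A) = 0 := by
  unfold nShort
  have : {w : Fin n → ℤ | w ≠ 0 ∧ ∑ i, (Matrix.mulVec A (fun j => (w j : ℝ))) i ^ 2 < minSq A}
      = ∅ := by
    rw [Set.eq_empty_iff_forall_notMem]
    rintro w ⟨hw, hlt⟩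
    exact absurd (minSq_le A w hw) (not_le.2 hlt)
  rw [this, Set.ncard_empty]

lemma minSq_le_minSqK {n : ℕ} (K : ℕ) (hn : 0 < n) (A : Matrix (Fin n) (Fin n) ℝ)
    (hA : A.det ≠ 0) : minSq A ≤ minSqK K A := by
  refine le_csSup ⟨_, fun r hr => mem_le hn A hA hr⟩ ?_
  show nShort A (minSq A) ≤ K
  rw [nShort_minSq]; exact Nat.zero_le _

lemma minSqK_le {n : ℕ} (K : ℕ) (hn : 0 < n) (A : Matrix (Fin n) (Fin n) ℝ)
    (hA : A.det ≠ 0) :
    minSqK K A ≤ gamma n * (|A.det| * (max 1 K : ℕ)) ^ ((2 : ℝ) / n) := by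
  refine csSup_le ⟨minSq A, ?_⟩ fun r hr => mem_le hn A hA hr
  show nShort A (minSq A) ≤ K
  rw [nShort_minSq]; exact Nat.zero_le _

lemma ratioK_le {n : ℕ} (K : ℕ) (hn : 0 < n) (A : Matrix (Fin n) (Fin n) ℝ)
    (hA : A.det ≠ 0) :
    minSqK K A / |A.det| ^ ((2 : ℝ) / (n : ℝ)) ≤
      gamma n * ((max 1 K : ℕ) : ℝ) ^ ((2 : ℝ) / n) := by
  have hA0 : 0 < |A.det| := abs_pos.2 hA
  rw [div_le_iff₀ (Real.rpow_pos_of_pos hA0 _)]
  refine (minSqK_le K hn A hA).trans (le_of_eq ?_)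
  rw [Real.mul_rpow hA0.le (by positivity)]
  ring

lemma gammaK_le {n : ℕ} (K : ℕ) (hn : 0 < n) :
    gammaK K n ≤ gamma n * ((max 1 K : ℕ) : ℝ) ^ ((2 : ℝ) / n) := by
  have := nonempty_mat n
  exact ciSup_le fun A => ratioK_le K hn A.1 A.2

lemma gamma_le_gammaK {n : ℕ} (K : ℕ) (hn : 0 < n) : gamma n ≤ gammaK K n := by
  have := nonempty_mat n
  refine ciSup_le fun A => ?_
  have hA0 : 0 < |A.1.det| := abs_pos.2 A.2
  refine le_trans ?_ (le_ciSup (f := fun A : {A : Matrix (Fin n) (Fin n) ℝ // A.det ≠ 0} =>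
    minSqK K A.1 / |A.1.det| ^ ((2 : ℝ) / (n : ℝ)))
    ⟨_, by rintro _ ⟨A, rfl⟩; exact ratioK_le K hn A.1 A.2⟩ A)
  unfold inv
  exact div_le_div_of_nonneg_right (minSq_le_minSqK K hn A.1 A.2)
    (Real.rpow_nonneg hA0.le _)

/-- The correction factor tends to `1` for subexponential `K`. -/
lemma factor_tendsto {K : ℕ → ℕ}
    (hK : Tendsto (fun n : ℕ => Real.log (K n) / n) atTop (𝓝 0)) :
    Tendsto (fun n : ℕ => ((max 1 (K n) : ℕ) : ℝ) ^ ((2 : ℝ) / n)) atTop (𝓝 1) := by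
  have h1 : (fun n : ℕ => ((max 1 (K n) : ℕ) : ℝ) ^ ((2 : ℝ) / n)) =
      fun n : ℕ => Real.exp (2 * (Real.log (K n) / n)) := by
    ext n
    have hlog : Real.log (K n) = Real.log ((max 1 (K n) : ℕ) : ℝ) := by
      rcases Nat.eq_zero_or_pos (K n) with h | h
      · rw [h]; simp
      · rw [max_eq_right h]
    have hpos : (0 : ℝ) < ((max 1 (K n) : ℕ) : ℝ) := by
      exact_mod_cast lt_of_lt_of_le one_pos (le_max_left 1 (K n))
    rw [Real.rpow_def_of_pos hpos, hlog]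
    congr 1
    ring
  rw [h1]
  have h3 : Tendsto (fun n : ℕ => 2 * (Real.log (K n) / n)) atTop (𝓝 (2 * 0)) := hK.const_mul 2
  have h2 : Tendsto (fun n : ℕ => Real.exp (2 * (Real.log (K n) / n))) atTop
      (𝓝 (Real.exp (2 * 0))) := (Real.continuous_exp.tendsto _).comp h3
  rw [mul_zero, Real.exp_zero] at h2
  exact h2

/-- Ignoring subexponentially many short vectors does not change the limit. -/
theorem relaxed_limit {K : ℕ → ℕ}
    (hK : Tendsto (fun n : ℕ => Real.log (K n) / n) atTop (𝓝 0)) (l : ℝ) :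
    Tendsto (fun n : ℕ => gammaK (K n) n / n) atTop (𝓝 l) ↔ Tendsto c atTop (𝓝 l) := by
  have hf := factor_tendsto hK
  have hlow : ∀ᶠ n : ℕ in atTop, c n ≤ gammaK (K n) n / n := by
    filter_upwards [eventually_gt_atTop 0] with n hn
    unfold c
    exact div_le_div_of_nonneg_right (gamma_le_gammaK _ hn) (Nat.cast_nonneg n)
  have hup : ∀ᶠ n : ℕ in atTop,
      gammaK (K n) n / n ≤ c n * ((max 1 (K n) : ℕ) : ℝ) ^ ((2 : ℝ) / n) := by
    filter_upwards [eventually_gt_atTop 0] with n hn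
    unfold c
    calc gammaK (K n) n / n ≤ (gamma n * ((max 1 (K n) : ℕ) : ℝ) ^ ((2 : ℝ) / n)) / n :=
          div_le_div_of_nonneg_right (gammaK_le _ hn) (Nat.cast_nonneg n)
      _ = _ := by ring
  constructor
  · intro h
    have h1 : Tendsto (fun n : ℕ => (gammaK (K n) n / n) /
        (((max 1 (K n) : ℕ) : ℝ) ^ ((2 : ℝ) / n))) atTop (𝓝 l) := by
      have h2 := h.div hf one_ne_zero
      rw [div_one] at h2
      exact h2
    refine tendsto_of_tendsto_of_tendsto_of_le_of_le' h1 h ?_ hlow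
    filter_upwards [hup] with n hn
    have hpos : (0 : ℝ) < ((max 1 (K n) : ℕ) : ℝ) ^ ((2 : ℝ) / n) := by
      refine Real.rpow_pos_of_pos ?_ _
      exact_mod_cast lt_of_lt_of_le one_pos (le_max_left 1 (K n))
    rw [div_le_iff₀ hpos]
    exact hn
  · intro h
    have h1 : Tendsto (fun n : ℕ => c n * (((max 1 (K n) : ℕ) : ℝ) ^ ((2 : ℝ) / n)))
        atTop (𝓝 l) := by
      have h2 := h.mul hf
      rw [mul_one] at h2
      exact h2
    exact tendsto_of_tendsto_of_tendsto_of_le_of_le' h h1 hlow hup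

lemma normSq_scale {n : ℕ} (A : Matrix (Fin n) (Fin n) ℝ) (t : ℝ) (w : Fin n → ℤ) :
    normSq (t • A) w = t ^ 2 * normSq A w := by
  unfold normSq
  rw [Matrix.smul_mulVec, Finset.mul_sum]
  refine Finset.sum_congr rfl fun i _ => ?_
  rw [Pi.smul_apply, smul_eq_mul, mul_pow]

/-- If every lattice of covolume `1` has a short vector, then `γ_n` is small. -/
lemma gamma_le_of_short {n : ℕ} (hn : 0 < n) {r : ℝ}
    (h : ∀ A : Matrix (Fin n) (Fin n) ℝ, |A.det| = 1 → ∃ w : Fin n → ℤ, w ≠ 0 ∧ normSq A w < r) :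
    gamma n ≤ r := by
  have := nonempty_mat n
  refine ciSup_le fun A => ?_
  have hA0 : 0 < |A.1.det| := abs_pos.2 A.2
  set t : ℝ := |A.1.det| ^ (-(1 : ℝ) / n) with ht
  have ht0 : 0 < t := Real.rpow_pos_of_pos hA0 _
  have hn' : (n : ℝ) ≠ 0 := by exact_mod_cast hn.ne'
  have htn : t ^ n * |A.1.det| = 1 := by
    rw [ht, ← Real.rpow_natCast, ← Real.rpow_mul hA0.le]
    have : -(1 : ℝ) / n * n = -1 := by field_simp
    rw [this, Real.rpow_neg_one, inv_mul_cancel₀ hA0.ne']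
  have hdet : |(t • A.1).det| = 1 := by
    rw [Matrix.det_smul, Fintype.card_fin, abs_mul, abs_of_pos (pow_pos ht0 n), htn]
  obtain ⟨w, hw, hlt⟩ := h _ hdet
  rw [normSq_scale] at hlt
  unfold inv
  rw [div_le_iff₀ (Real.rpow_pos_of_pos hA0 _)]
  refine (minSq_le A.1 w hw).trans ?_
  have ht2 : t ^ 2 * |A.1.det| ^ ((2 : ℝ) / n) = 1 := by
    rw [ht, ← Real.rpow_natCast, ← Real.rpow_mul hA0.le, ← Real.rpow_add hA0]
    have : -(1 : ℝ) / n * (2 : ℕ) + 2 / n = 0 := by push_cast; ring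
    rw [this, Real.rpow_zero]
  have hP : 0 < |A.1.det| ^ ((2 : ℝ) / n) := Real.rpow_pos_of_pos hA0 _
  have : normSq A.1 w = (t ^ 2 * normSq A.1 w) * |A.1.det| ^ ((2 : ℝ) / n) := by
    calc normSq A.1 w = normSq A.1 w * (t ^ 2 * |A.1.det| ^ ((2 : ℝ) / n)) := by rw [ht2, mul_one]
      _ = _ := by ring
  show normSq A.1 w ≤ _
  rw [this]
  exact mul_le_mul_of_nonneg_right hlt.le hP.le

/-- Upper bounds for Hermite's constant are equivalent to lower bounds for the number of lattice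
vectors in balls. -/
theorem counts_iff {l : ℝ} (hl : 0 < l) :
    (∀ ρ : ℝ, l < ρ → ∀ᶠ n : ℕ in atTop, c n < ρ) ↔
      ∀ ρ ε : ℝ, l < ρ → 0 < ε → ∀ᶠ n : ℕ in atTop, ∀ A : Matrix (Fin n) (Fin n) ℝ,
        |A.det| = 1 → (ρ / l) ^ ((n : ℝ) / 2) * Real.exp (-(ε * n)) ≤ nShort A (ρ * n) := by
  constructor
  · intro h ρ ε hρ hε
    -- an intermediate value
    obtain ⟨m, hm1, hm2, hm3⟩ : ∃ m : ℝ, l < m ∧ m < ρ ∧ m ≤ l * Real.exp (2 * ε) := by
      have h1 : l < l * Real.exp (2 * ε) := by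
        have := Real.one_lt_exp_iff.2 (by positivity : 0 < 2 * ε)
        nlinarith
      obtain ⟨m, hm, hm'⟩ := exists_between (lt_min hρ h1)
      exact ⟨m, hm, lt_of_lt_of_le hm' (min_le_left _ _), (lt_of_lt_of_le hm' (min_le_right _ _)).le⟩
    have hm0 : 0 < m := hl.trans hm1
    have hρ0 : 0 < ρ := hl.trans hρ
    filter_upwards [h m hm1, eventually_gt_atTop 0] with n hc hn A hA
    have hn0 : (0 : ℝ) < n := by exact_mod_cast hn
    have hA0 : A.det ≠ 0 := by
      intro h0; rw [h0, abs_zero] at hA; exact zero_ne_one hA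
    have h1 := expurgate hn A hA0 (ρ * n)
    rw [hA, one_mul] at h1
    set N : ℕ := nShort A (ρ * n) with hN
    set M : ℝ := ((max 1 N : ℕ) : ℝ) with hM
    have hM1 : 1 ≤ M := by rw [hM]; exact_mod_cast le_max_left 1 N
    have hM0 : 0 < M := by linarith
    have hg : gamma n ≤ m * n := by
      have : gamma n / n < m := hc
      rw [div_lt_iff₀ hn0] at this
      exact this.le
    have h2 : ρ / m ≤ M ^ ((2 : ℝ) / n) := by
      have h3 : ρ * n ≤ m * n * M ^ ((2 : ℝ) / n) :=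
        h1.trans (mul_le_mul_of_nonneg_right hg (Real.rpow_nonneg hM0.le _))
      rw [div_le_iff₀ hm0]
      have h4 : ρ * n ≤ (M ^ ((2 : ℝ) / n) * m) * n := by linarith
      exact le_of_mul_le_mul_right h4 hn0
    have h3 : (ρ / m) ^ ((n : ℝ) / 2) ≤ M := by
      have h4 := Real.rpow_le_rpow (by positivity) h2 (by positivity : (0 : ℝ) ≤ n / 2)
      rw [← Real.rpow_mul hM0.le] at h4
      have : (2 : ℝ) / n * (n / 2) = 1 := by field_simp
      rwa [this, Real.rpow_one] at h4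
    have h4 : 1 < (ρ / m) ^ ((n : ℝ) / 2) :=
      Real.one_lt_rpow ((one_lt_div hm0).2 hm2) (by positivity)
    have hMN : M = (N : ℝ) := by
      have h5 : 1 < M := lt_of_lt_of_le h4 h3
      rw [hM] at h5 ⊢
      have h6 : 1 < max 1 N := by exact_mod_cast h5
      have h7 : max 1 N = N := max_eq_right (by omega)
      rw [h7]
    rw [← hMN]
    refine le_trans ?_ h3
    have h5 : (ρ / l) ^ ((n : ℝ) / 2) * Real.exp (-(ε * n)) =
        (ρ / l * Real.exp (-(2 * ε))) ^ ((n : ℝ) / 2) := by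
      rw [Real.mul_rpow (by positivity) (Real.exp_pos _).le, ← Real.exp_mul]
      congr 2
      ring
    rw [h5]
    refine Real.rpow_le_rpow (by positivity) ?_ (by positivity)
    rw [Real.exp_neg, div_mul_eq_mul_div, div_le_div_iff₀ hl hm0, ← div_eq_mul_inv,
      div_mul_eq_mul_div, div_le_iff₀ (Real.exp_pos _)]
    nlinarith [Real.exp_pos (2 * ε)]
  · intro h ρ hρ
    have hρ0 : 0 < ρ := hl.trans hρ
    obtain ⟨m, hm1, hm2⟩ := exists_between hρ
    filter_upwards [h m 1 hm1 one_pos, eventually_gt_atTop 0] with n hn hn0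
    have hn0' : (0 : ℝ) < n := by exact_mod_cast hn0
    have hm0 : 0 < m := hl.trans hm1
    have h1 : gamma n ≤ m * n := by
      refine gamma_le_of_short hn0 fun A hA => ?_
      have h2 := hn A hA
      have h3 : (0 : ℝ) < (m / l) ^ ((n : ℝ) / 2) * Real.exp (-(1 * n)) := by positivity
      have h4 : 0 < nShort A (m * n) := by exact_mod_cast lt_of_lt_of_le h3 h2
      unfold nShort at h4
      obtain ⟨w, hw⟩ := Set.nonempty_of_ncard_ne_zero h4.ne'
      exact ⟨w, hw.1, hw.2⟩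
    unfold c
    rw [div_lt_iff₀ hn0']
    nlinarith

end Pool.Agent.Lib.MP_ef2672_gt_Tauber
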