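import Mathlib

/-!
MP_ef2672: Hermite's constant, as in the frozen statement.
-/

namespace Pool.Agent.Lib.MP_ef2672_gt_Tauber

/-- The infimum of `‖A w‖²` over the nonzero integer vectors `w`, that is, the squared length of a
shortest nonzero vector of the lattice `A ℤⁿ`. -/
noncomputable def minSq {n : ℕ} (A : Matrix (Fin n) (Fin n) ℝ) : ℝ :=
  ⨅ w : {w : Fin n → ℤ // w ≠ 0}, ∑ i, (Matrix.mulVec A (fun j => (w.1 j : ℝ))) i ^ 2

/-- The lattice invariant `λ₁(L)² / det(L)^(2/n)` of the lattice `A ℤⁿ`. -/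
noncomputable def inv {n : ℕ} (A : Matrix (Fin n) (Fin n) ℝ) : ℝ :=
  minSq A / |A.det| ^ ((2 : ℝ) / (n : ℝ))

/-- Hermite's constant `γ_n`: the supremum of `λ₁(L)² / det(L)^(2/n)` over all full-rank lattices
`L = A ℤⁿ` in `ℝⁿ`. -/
noncomputable def gamma (n : ℕ) : ℝ :=
  ⨆ A : {A : Matrix (Fin n) (Fin n) ℝ // A.det ≠ 0}, inv A.1

/-- The normalised Hermite constant `γ_n / n`. -/
noncomputable def c (n : ℕ) : ℝ := gamma n / n

end Pool.Agent.Lib.MP_ef2672_gt_Tauber
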