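import Pool.Agent.Lib.MP_ef2672_gt_Tauber.Defs

/-!
Upper bound `γ_n ≤ n` from Minkowski's convex body theorem.
-/

namespace Pool.Agent.Lib.MP_ef2672_gt_Tauber

open MeasureTheory

lemma bddBelow_range {n : ℕ} (A : Matrix (Fin n) (Fin n) ℝ) :
    BddBelow (Set.range fun w : {w : Fin n → ℤ // w ≠ 0} =>
      ∑ i, (Matrix.mulVec A (fun j => (w.1 j : ℝ))) i ^ 2) :=
  ⟨0, by rintro _ ⟨w, rfl⟩; exact Finset.sum_nonneg fun i _ => sq_nonneg _⟩

lemma minSq_le {n : ℕ} (A : Matrix (Fin n) (Fin n) ℝ) (w : Fin n → ℤ) (hw : w ≠ 0) :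
    minSq A ≤ ∑ i, (Matrix.mulVec A (fun j => (w j : ℝ))) i ^ 2 :=
  ciInf_le (bddBelow_range A) ⟨w, hw⟩

lemma nonempty_ne_zero {n : ℕ} (hn : 0 < n) : Nonempty {w : Fin n → ℤ // w ≠ 0} := by
  refine ⟨⟨fun _ => 1, ?_⟩⟩
  intro h
  have := congrFun h ⟨0, hn⟩
  simp at this

lemma minSq_nonneg {n : ℕ} (A : Matrix (Fin n) (Fin n) ℝ) : 0 ≤ minSq A :=
  Real.iInf_nonneg fun w => Finset.sum_nonneg fun i _ => sq_nonneg _

lemma le_minSq {n : ℕ} (hn : 0 < n) (A : Matrix (Fin n) (Fin n) ℝ) {r : ℝ}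
    (h : ∀ w : Fin n → ℤ, w ≠ 0 → r ≤ ∑ i, (Matrix.mulVec A (fun j => (w j : ℝ))) i ^ 2) :
    r ≤ minSq A := by
  have := nonempty_ne_zero hn
  exact le_ciInf fun w => h w.1 w.2

/-- Minkowski's theorem on linear forms. -/
lemma exists_small {n : ℕ} (hn : 0 < n) (A : Matrix (Fin n) (Fin n) ℝ) (hA : A.det ≠ 0) :
    ∃ w : Fin n → ℤ, w ≠ 0 ∧
      ∀ i, |(Matrix.mulVec A (fun j => (w j : ℝ))) i| ≤ |A.det| ^ ((1 : ℝ) / n) := by
  classical
  have : Nonempty (Fin n) := ⟨⟨0, hn⟩⟩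
  have : Nontrivial (Fin n → ℝ) := Function.nontrivial
  set r : ℝ := |A.det| ^ ((1 : ℝ) / n) with hr
  have hdet : 0 < |A.det| := abs_pos.2 hA
  have hr0 : 0 < r := Real.rpow_pos_of_pos hdet _
  have hn' : (n : ℝ) ≠ 0 := by exact_mod_cast hn.ne'
  have hrn : r ^ n = |A.det| := by
    rw [hr, ← Real.rpow_natCast, ← Real.rpow_mul hdet.le, one_div, inv_mul_cancel₀ hn',
      Real.rpow_one]
  have hunit : IsUnit A.det := isUnit_iff_ne_zero.2 hA
  let e : (Fin n → ℝ) ≃ₗ[ℝ] (Fin n → ℝ) := Matrix.toLinearEquiv' A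
    ((Matrix.isUnit_iff_isUnit_det A).2 hunit).invertible
  let b : Module.Basis (Fin n) ℝ (Fin n → ℝ) := (Pi.basisFun ℝ (Fin n)).map e
  have hb : ∀ j, b j = fun i => A i j := by
    intro j
    simp only [b, e, Module.Basis.map_apply, Pi.basisFun_apply]
    ext i
    simp [Matrix.toLinearEquiv']
  have hdetb : (Matrix.of b).det = A.det := by
    rw [← Matrix.det_transpose A]
    congr 1
    ext i j
    simp [hb]
  let s : Set (Fin n → ℝ) := Set.pi Set.univ fun _ => Set.Icc (-r) r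
  have hvol : volume s = ENNReal.ofReal ((2 * r) ^ n) := by
    simp only [s]
    rw [volume_pi, Measure.pi_pi]
    simp only [Real.volume_Icc, Finset.prod_const, Finset.card_univ, Fintype.card_fin]
    rw [← ENNReal.ofReal_pow (by linarith)]
    congr 2
    ring
  have hfund := ZSpan.isAddFundamentalDomain' b volume
  have hcount : Countable (Submodule.span ℤ (Set.range b)).toAddSubgroup :=
    inferInstanceAs (Countable (Submodule.span ℤ (Set.range b)))
  have hdisc : DiscreteTopology (Submodule.span ℤ (Set.range b)).toAddSubgroup :=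
    inferInstanceAs (DiscreteTopology (Submodule.span ℤ (Set.range b)))
  obtain ⟨x, hx0, hxs⟩ := exists_ne_zero_mem_lattice_of_measure_mul_two_pow_le_measure
    (s := s) (μ := volume) hfund
    (by
      intro x hx i hi
      have := hx i hi
      simp only [Set.mem_Icc, Pi.neg_apply] at this ⊢
      constructor <;> linarith [this.1, this.2])
    (convex_pi fun i _ => convex_Icc _ _)
    (isCompact_univ_pi fun i => isCompact_Icc)
    (by
      rw [hvol, ZSpan.volume_fundamentalDomain, hdetb, Module.finrank_fin_fun]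
      rw [mul_pow, hrn, ENNReal.ofReal_mul (by positivity), mul_comm]
      gcongr
      rw [ENNReal.ofReal_pow (by norm_num)]
      simp)
  have hmem : (x : Fin n → ℝ) ∈ Submodule.span ℤ (Set.range b) := x.2
  rw [Submodule.mem_span_range_iff_exists_fun] at hmem
  obtain ⟨w, hw⟩ := hmem
  have hAw : Matrix.mulVec A (fun j => (w j : ℝ)) = (x : Fin n → ℝ) := by
    rw [← hw]
    ext i
    rw [Matrix.mulVec, dotProduct, Finset.sum_apply]
    refine Finset.sum_congr rfl fun j _ => ?_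
    rw [hb]
    simp [mul_comm]
  refine ⟨w, ?_, ?_⟩
  · rintro rfl
    apply hx0
    apply Subtype.ext
    rw [← hAw]
    ext i
    simp [Matrix.mulVec, dotProduct]
  · intro i
    rw [hAw, abs_le]
    exact hxs i (Set.mem_univ i)

lemma inv_nonneg {n : ℕ} (A : Matrix (Fin n) (Fin n) ℝ) : 0 ≤ inv A :=
  div_nonneg (minSq_nonneg A) (Real.rpow_nonneg (abs_nonneg _) _)

lemma inv_le {n : ℕ} (hn : 0 < n) (A : Matrix (Fin n) (Fin n) ℝ) (hA : A.det ≠ 0) :
    inv A ≤ n := by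
  obtain ⟨w, hw, hle⟩ := exists_small hn A hA
  have hdet : 0 < |A.det| := abs_pos.2 hA
  unfold inv
  rw [div_le_iff₀ (Real.rpow_pos_of_pos hdet _)]
  refine (minSq_le A w hw).trans ?_
  have h1 : ∀ i ∈ (Finset.univ : Finset (Fin n)),
      (Matrix.mulVec A (fun j => (w j : ℝ))) i ^ 2 ≤ |A.det| ^ ((2 : ℝ) / n) := by
    intro i _
    have h2 : |A.det| ^ ((2 : ℝ) / n) = (|A.det| ^ ((1 : ℝ) / n)) ^ 2 := by
      rw [← Real.rpow_natCast, ← Real.rpow_mul hdet.le]
      congr 1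
      push_cast; ring
    rw [h2, ← sq_abs]
    exact pow_le_pow_left₀ (abs_nonneg _) (hle i) 2
  refine (Finset.sum_le_sum h1).trans ?_
  rw [Finset.sum_const, Finset.card_univ, Fintype.card_fin, nsmul_eq_mul]

lemma bddAbove_inv {n : ℕ} (hn : 0 < n) :
    BddAbove (Set.range fun A : {A : Matrix (Fin n) (Fin n) ℝ // A.det ≠ 0} => inv A.1) :=
  ⟨n, by rintro _ ⟨A, rfl⟩; exact inv_le hn A.1 A.2⟩

lemma inv_le_gamma {n : ℕ} (hn : 0 < n) (A : Matrix (Fin n) (Fin n) ℝ) (hA : A.det ≠ 0) :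
    inv A ≤ gamma n :=
  le_ciSup (bddAbove_inv hn) ⟨A, hA⟩

lemma nonempty_mat (n : ℕ) : Nonempty {A : Matrix (Fin n) (Fin n) ℝ // A.det ≠ 0} :=
  ⟨⟨1, by simp⟩⟩

lemma gamma_le {n : ℕ} (hn : 0 < n) : gamma n ≤ n := by
  have := nonempty_mat n
  exact ciSup_le fun A => inv_le hn A.1 A.2

lemma gamma_nonneg (n : ℕ) : 0 ≤ gamma n := Real.iSup_nonneg fun A => inv_nonneg A.1

end Pool.Agent.Lib.MP_ef2672_gt_Tauber
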