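import Pool.Agent.Lib.MP_ef2672_gt_Tauber.Lower

/-!
Expurgation of short lattice vectors: passing to a sublattice of prime index removes all short
vectors, provided that the index exceeds half their number.
-/

namespace Pool.Agent.Lib.MP_ef2672_gt_Tauber

open Matrix

/-- The squared length `‖A w‖²`. -/
noncomputable def normSq {n : ℕ} (A : Matrix (Fin n) (Fin n) ℝ) (w : Fin n → ℤ) : ℝ :=
  ∑ i, (Matrix.mulVec A (fun j => (w j : ℝ))) i ^ 2

/-- The number of nonzero vectors of the lattice `A ℤⁿ` with squared length less than `r`. -/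
noncomputable def nShort {n : ℕ} (A : Matrix (Fin n) (Fin n) ℝ) (r : ℝ) : ℕ :=
  {w : Fin n → ℤ | w ≠ 0 ∧ ∑ i, (Matrix.mulVec A (fun j => (w j : ℝ))) i ^ 2 < r}.ncard

lemma normSq_nonneg {n : ℕ} (A : Matrix (Fin n) (Fin n) ℝ) (w : Fin n → ℤ) : 0 ≤ normSq A w :=
  Finset.sum_nonneg fun _ _ => sq_nonneg _

/-- Scaling an integer vector. -/
lemma normSq_smul {n : ℕ} (A : Matrix (Fin n) (Fin n) ℝ) (w : Fin n → ℤ) (k : ℤ) :
    normSq A (k • w) = (k : ℝ) ^ 2 * normSq A w := by
  unfold normSq
  have h : (fun j => (((k • w) j : ℤ) : ℝ)) = (k : ℝ) • (fun j => (w j : ℝ)) := by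
    ext j; simp
  rw [h, Matrix.mulVec_smul, Finset.mul_sum]
  refine Finset.sum_congr rfl fun i _ => ?_
  rw [Pi.smul_apply, smul_eq_mul, mul_pow]

/-- There are finitely many short vectors. -/
lemma finite_short {n : ℕ} (A : Matrix (Fin n) (Fin n) ℝ) (hA : A.det ≠ 0) (r : ℝ) :
    {w : Fin n → ℤ | w ≠ 0 ∧ normSq A w < r}.Finite := by
  classical
  set C : ℝ := ∑ i, ∑ j, |A⁻¹ i j| with hC
  have hC0 : 0 ≤ C := Finset.sum_nonneg fun i _ => Finset.sum_nonneg fun j _ => abs_nonneg _
  obtain ⟨M, hM⟩ := exists_nat_ge (C * (|r| + 1))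
  refine (Set.Finite.subset (Set.finite_Icc (fun _ : Fin n => (-(M : ℤ))) (fun _ => (M : ℤ)))) ?_
  rintro w ⟨_, hw⟩
  have hcoord : ∀ i, |(Matrix.mulVec A (fun j => (w j : ℝ))) i| ≤ |r| + 1 := by
    intro i
    have h1 : (Matrix.mulVec A (fun j => (w j : ℝ))) i ^ 2 ≤ normSq A w :=
      Finset.single_le_sum (f := fun i => (Matrix.mulVec A (fun j => (w j : ℝ))) i ^ 2)
        (fun j _ => sq_nonneg _) (Finset.mem_univ i)
    have h2 : (Matrix.mulVec A (fun j => (w j : ℝ))) i ^ 2 ≤ (|r| + 1) ^ 2 := by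
      have h3 : r ≤ |r| := le_abs_self r
      have h4 := abs_nonneg r
      nlinarith
    exact abs_le_of_sq_le_sq h2 (by positivity)
  have hinv : ∀ i, (w i : ℝ) = ∑ j, A⁻¹ i j * (Matrix.mulVec A (fun j => (w j : ℝ))) j := by
    intro i
    have h1 : Matrix.mulVec A⁻¹ (Matrix.mulVec A (fun j => (w j : ℝ))) = fun j => (w j : ℝ) := by
      rw [Matrix.mulVec_mulVec, Matrix.nonsing_inv_mul _ (isUnit_iff_ne_zero.2 hA),
        Matrix.one_mulVec]
    exact (congrFun h1 i).symm
  have hbound : ∀ i, |(w i : ℝ)| ≤ M := by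
    intro i
    rw [hinv i]
    refine (Finset.abs_sum_le_sum_abs _ _).trans ?_
    have h1 : ∑ j, |A⁻¹ i j * (Matrix.mulVec A (fun j => (w j : ℝ))) j|
        ≤ ∑ j, |A⁻¹ i j| * (|r| + 1) := by
      refine Finset.sum_le_sum fun j _ => ?_
      rw [abs_mul]
      exact mul_le_mul_of_nonneg_left (hcoord j) (abs_nonneg _)
    refine h1.trans ?_
    rw [← Finset.sum_mul]
    refine le_trans ?_ hM
    refine mul_le_mul_of_nonneg_right ?_ (by positivity)
    exact Finset.single_le_sum (f := fun i => ∑ j, |A⁻¹ i j|)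
      (fun i _ => Finset.sum_nonneg fun j _ => abs_nonneg _) (Finset.mem_univ i)
  rw [Set.mem_Icc, Pi.le_def, Pi.le_def]
  constructor
  · intro i
    have := (abs_le.1 (hbound i)).1
    exact_mod_cast this
  · intro i
    have := (abs_le.1 (hbound i)).2
    exact_mod_cast this

/-- The basis matrix of the sublattice `{x ∈ ℤⁿ : ∑ a_j x_j ≡ 0 (mod p)}`, `a_k = 1`. -/
noncomputable def subMat {n : ℕ} (p : ℕ) (k : Fin n) (a : Fin n → ℤ) :
    Matrix (Fin n) (Fin n) ℝ :=
  (1 : Matrix (Fin n) (Fin n) ℝ).updateRow k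
    (fun j => if j = k then (p : ℝ) else -(a j : ℝ))

lemma subMat_det {n : ℕ} (p : ℕ) (k : Fin n) (a : Fin n → ℤ) : (subMat p k a).det = p := by
  unfold subMat
  rw [← Matrix.cramer_transpose_apply, Matrix.transpose_one, Matrix.cramer_one]
  simp

lemma subMat_mulVec {n : ℕ} (p : ℕ) (k : Fin n) (a : Fin n → ℤ) (hak : a k = 1)
    (w : Fin n → ℤ) :
    ∃ x : Fin n → ℤ, (Matrix.mulVec (subMat p k a) (fun j => (w j : ℝ))) = (fun i => (x i : ℝ)) ∧
      (∑ j, a j * x j = p * w k) ∧ (∀ i, i ≠ k → x i = w i) := by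
  classical
  refine ⟨fun i => if i = k then p * w k - ∑ j ∈ Finset.univ.erase k, a j * w j else w i,
    ?_, ?_, ?_⟩
  · ext i
    rw [Matrix.mulVec, dotProduct]
    by_cases hi : i = k
    · subst hi
      simp only [subMat, Matrix.updateRow_self, if_true]
      rw [← Finset.add_sum_erase _ _ (Finset.mem_univ i)]
      push_cast
      rw [if_pos rfl, sub_eq_add_neg, ← Finset.sum_neg_distrib]
      congr 1
      refine Finset.sum_congr rfl fun j hj => ?_
      rw [if_neg (Finset.ne_of_mem_erase hj)]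
      ring
    · simp only [if_neg hi, subMat]
      rw [Matrix.updateRow_ne hi]
      rw [Finset.sum_eq_single i]
      · simp
      · intro j _ hj
        rw [Matrix.one_apply_ne (Ne.symm hj)]
        simp
      · simp
  · rw [← Finset.add_sum_erase _ _ (Finset.mem_univ k)]
    beta_reduce
    rw [if_pos rfl, hak]
    have h1 : ∑ j ∈ Finset.univ.erase k,
        a j * (if j = k then (p : ℤ) * w k - ∑ j ∈ Finset.univ.erase k, a j * w j else w j)
        = ∑ j ∈ Finset.univ.erase k, a j * w j := by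
      refine Finset.sum_congr rfl fun j hj => ?_
      rw [if_neg (Finset.ne_of_mem_erase hj)]
    rw [h1]
    ring
  · intro i hi
    simp [hi]

/-- The number of solutions of a nontrivial linear equation over `ZMod p`. -/
lemma card_ker {n p : ℕ} [Fact p.Prime] (v : Fin n → ZMod p) (hv : v ≠ 0) :
    p * (Finset.univ.filter fun a : Fin n → ZMod p => ∑ j, a j * v j = 0).card = p ^ n := by
  classical
  let f : (Fin n → ZMod p) →+ ZMod p :=
    { toFun := fun a => ∑ j, a j * v j
      map_zero' := by simp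
      map_add' := by
        intro a b
        rw [← Finset.sum_add_distrib]
        exact Finset.sum_congr rfl fun j _ => by rw [Pi.add_apply, add_mul] }
  have hf : Function.Surjective f := by
    obtain ⟨k, hk⟩ : ∃ k, v k ≠ 0 := by
      by_contra hcon
      push Not at hcon
      exact hv (funext hcon)
    intro y
    refine ⟨Pi.single k (y * (v k)⁻¹), ?_⟩
    show ∑ j, (Pi.single k (y * (v k)⁻¹) : Fin n → ZMod p) j * v j = y
    rw [Finset.sum_eq_single k]
    · rw [Pi.single_eq_same, mul_assoc, inv_mul_cancel₀ hk, mul_one]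
    · intro j _ hj
      rw [Pi.single_eq_of_ne hj, zero_mul]
    · simp
  have h1 : Nat.card (Fin n → ZMod p) = Nat.card ((Fin n → ZMod p) ⧸ f.ker) * Nat.card f.ker :=
    AddSubgroup.card_eq_card_quotient_mul_card_addSubgroup f.ker
  have h2 : Nat.card ((Fin n → ZMod p) ⧸ f.ker) = p := by
    rw [Nat.card_congr (QuotientAddGroup.quotientKerEquivOfSurjective f hf).toEquiv,
      Nat.card_zmod]
  have h3 : Nat.card (Fin n → ZMod p) = p ^ n := by
    rw [Nat.card_eq_fintype_card, Fintype.card_fun, ZMod.card, Fintype.card_fin]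
  have h4 : Nat.card f.ker = (Finset.univ.filter fun a : Fin n → ZMod p =>
      ∑ j, a j * v j = 0).card := by
    rw [Nat.card_eq_fintype_card, Fintype.card_of_subtype]
    intro x
    rw [Finset.mem_filter]
    exact ⟨fun h => h.2, fun h => ⟨Finset.mem_univ _, h⟩⟩
  rw [← h4, ← h3, h1, h2]

/-- A nonzero residue vector `a` orthogonal to no element of a symmetric finite set `F` of fewer
than `2p` vectors which are nonzero modulo `p`. -/
lemma exists_residue {n p : ℕ} (hn : 0 < n) [hp : Fact p.Prime] (F : Finset (Fin n → ℤ))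
    (hsym : ∀ w ∈ F, -w ∈ F) (h0 : ∀ w ∈ F, w ≠ 0) (hcard : F.card < 2 * p)
    (hmod : ∀ w ∈ F, (fun j => ((w j : ℤ) : ZMod p)) ≠ 0) :
    ∃ a : Fin n → ZMod p, a ≠ 0 ∧ ∀ w ∈ F, ∑ j, a j * ((w j : ℤ) : ZMod p) ≠ 0 := by
  classical
  by_contra hcon
  push Not at hcon
  -- double counting
  let U : Finset (Fin n → ZMod p) := Finset.univ.erase 0
  have hU : U.card = p ^ n - 1 := by
    rw [Finset.card_erase_of_mem (Finset.mem_univ _), Finset.card_univ, Fintype.card_fun,
      ZMod.card, Fintype.card_fin]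
  have h1 : ∑ a ∈ U, (F.filter fun w => ∑ j, a j * ((w j : ℤ) : ZMod p) = 0).card
      = ∑ w ∈ F, (U.filter fun a => ∑ j, a j * ((w j : ℤ) : ZMod p) = 0).card := by
    simp only [Finset.card_filter]
    exact Finset.sum_comm
  have h2 : 2 * U.card ≤ ∑ a ∈ U, (F.filter fun w => ∑ j, a j * ((w j : ℤ) : ZMod p) = 0).card := by
    rw [mul_comm, ← smul_eq_mul]
    refine Finset.card_nsmul_le_sum _ _ _ fun a ha => ?_
    obtain ⟨w, hwF, hw⟩ := hcon a (Finset.ne_of_mem_erase ha)
    have hne : w ≠ -w := by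
      intro h
      apply h0 w hwF
      ext j
      have := congrFun h j
      simp only [Pi.neg_apply] at this
      simp only [Pi.zero_apply]
      omega
    have hsub : ({w, -w} : Finset (Fin n → ℤ)) ⊆
        F.filter fun w => ∑ j, a j * ((w j : ℤ) : ZMod p) = 0 := by
      intro v hv
      rw [Finset.mem_insert, Finset.mem_singleton] at hv
      rw [Finset.mem_filter]
      rcases hv with rfl | rfl
      · exact ⟨hwF, hw⟩
      · refine ⟨hsym w hwF, ?_⟩
        simp only [Pi.neg_apply, Int.cast_neg, mul_neg, Finset.sum_neg_distrib, hw, neg_zero]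
    calc 2 = ({w, -w} : Finset (Fin n → ℤ)).card := (Finset.card_pair hne).symm
      _ ≤ _ := Finset.card_le_card hsub
  have hp1 : 2 ≤ p := hp.1.two_le
  have h3 : ∀ w ∈ F, p * (U.filter fun a => ∑ j, a j * ((w j : ℤ) : ZMod p) = 0).card + p
      = p ^ n := by
    intro w hw
    have h4 := card_ker (p := p) (fun j => ((w j : ℤ) : ZMod p)) (hmod w hw)
    have h5 : (U.filter fun a => ∑ j, a j * ((w j : ℤ) : ZMod p) = 0) =
        (Finset.univ.filter fun a : Fin n → ZMod p =>
          ∑ j, a j * ((w j : ℤ) : ZMod p) = 0).erase 0 := by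
      ext a
      simp only [U, Finset.mem_filter, Finset.mem_erase, Finset.mem_univ, and_true, true_and]
    have h6 : (0 : Fin n → ZMod p) ∈ (Finset.univ.filter fun a : Fin n → ZMod p =>
          ∑ j, a j * ((w j : ℤ) : ZMod p) = 0) := by
      rw [Finset.mem_filter]; simp
    have h7 := Finset.card_erase_add_one h6
    rw [← h5] at h7
    rw [← h4, ← h7]
    ring
  have h8 : p * ∑ w ∈ F, (U.filter fun a => ∑ j, a j * ((w j : ℤ) : ZMod p) = 0).card
      + F.card * p = F.card * p ^ n := by
    rw [Finset.mul_sum, ← smul_eq_mul F.card p, ← Finset.sum_const, ← Finset.sum_add_distrib,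
      Finset.sum_congr rfl h3, Finset.sum_const, smul_eq_mul]
  rw [h1] at h2
  have h9 : p * (2 * U.card) ≤ p * ∑ w ∈ F,
      (U.filter fun a => ∑ j, a j * ((w j : ℤ) : ZMod p) = 0).card := Nat.mul_le_mul_left _ h2
  have hpn : p ≤ p ^ n := Nat.le_self_pow hn.ne' p
  have hpn1 : 1 ≤ p ^ n := by omega
  obtain ⟨q, hq⟩ : ∃ q, p ^ n = q + 1 := ⟨p ^ n - 1, by omega⟩
  rw [hU, hq] at h9
  rw [hq] at h8 hpn
  simp only [Nat.add_sub_cancel] at h9
  -- 2 p q + F p ≤ F (q+1), F ≤ 2p - 1, p ≤ q + 1
  have h10 : p * (2 * q) + F.card * p ≤ F.card * (q + 1) := by omega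
  have h11 : F.card + 1 ≤ 2 * p := hcard
  nlinarith

/-- **Expurgation.** A lattice with `N` nonzero vectors of squared length less than `r` has a
sublattice of index at most `max 1 N` without such vectors. -/
theorem exists_sublattice {n : ℕ} (hn : 0 < n) (A : Matrix (Fin n) (Fin n) ℝ) (hA : A.det ≠ 0)
    (r : ℝ) : ∃ (B : Matrix (Fin n) (Fin n) ℝ) (p : ℕ), 0 < p ∧ p ≤ max 1 (nShort A r) ∧
      |B.det| = |A.det| * p ∧ r ≤ minSq B := by
  classical
  have hfin := finite_short A hA r
  set F : Finset (Fin n → ℤ) := hfin.toFinset with hF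
  have hFmem : ∀ w, w ∈ F ↔ w ≠ 0 ∧ normSq A w < r := fun w => by
    rw [hF, Set.Finite.mem_toFinset]; rfl
  have hcard : nShort A r = F.card := by
    unfold nShort
    rw [hF]
    exact Set.ncard_eq_toFinset_card _ hfin
  by_cases hN : F.card = 0
  · refine ⟨A, 1, one_pos, le_max_left _ _, by simp, le_minSq hn A fun w hw => ?_⟩
    by_contra hlt
    push Not at hlt
    have : w ∈ F := (hFmem w).2 ⟨hw, hlt⟩
    rw [Finset.card_eq_zero] at hN
    rw [hN] at this
    exact Finset.notMem_empty _ this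
  · have hneg : ∀ w ∈ F, -w ∈ F := by
      intro w hw
      rw [hFmem] at hw ⊢
      refine ⟨neg_ne_zero.2 hw.1, ?_⟩
      have h1 := normSq_smul A w (-1)
      rw [neg_one_smul] at h1
      rw [h1]
      norm_num
      exact hw.2
    have h2 : 2 ≤ F.card := by
      obtain ⟨w, hw⟩ := Finset.card_pos.1 (Nat.pos_of_ne_zero hN)
      have hne : w ≠ -w := by
        intro h
        apply ((hFmem w).1 hw).1
        ext j
        have := congrFun h j
        simp only [Pi.neg_apply] at this
        simp only [Pi.zero_apply]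
        omega
      calc 2 = ({w, -w} : Finset (Fin n → ℤ)).card := (Finset.card_pair hne).symm
        _ ≤ F.card := Finset.card_le_card (by
          intro v hv
          rw [Finset.mem_insert, Finset.mem_singleton] at hv
          rcases hv with rfl | rfl
          · exact hw
          · exact hneg w hw)
    obtain ⟨p, hp, hlt, hle⟩ := Nat.exists_prime_lt_and_le_two_mul (F.card / 2) (by omega)
    have hpF : F.card < 2 * p := by omega
    have hpN : p ≤ F.card := by omega
    have hfact : Fact p.Prime := ⟨hp⟩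
    have hp0 : (0 : ℤ) < p := by exact_mod_cast hp.pos
    -- no short vector is divisible by `p`
    have hmod : ∀ w ∈ F, (fun j => ((w j : ℤ) : ZMod p)) ≠ 0 := by
      intro w hw hzero
      have hdvd : ∀ j, (p : ℤ) ∣ w j := fun j =>
        (ZMod.intCast_zmod_eq_zero_iff_dvd _ _).1 (congrFun hzero j)
      choose u hu using hdvd
      have hwu : w = (p : ℤ) • u := by
        ext j; rw [Pi.smul_apply, smul_eq_mul, hu j]
      have hu0 : u ≠ 0 := by
        rintro rfl
        apply ((hFmem w).1 hw).1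
        rw [hwu, smul_zero]
      have hnw : (p : ℝ) ^ 2 * normSq A u < r := by
        have := ((hFmem w).1 hw).2
        rw [hwu, normSq_smul] at this
        exact_mod_cast this
      -- the multiples `k u`, `1 ≤ |k| ≤ p`
      let S : Finset ℤ := (Finset.Icc (-(p : ℤ)) p).erase 0
      have hScard : S.card = 2 * p := by
        rw [Finset.card_erase_of_mem (by rw [Finset.mem_Icc]; omega), Int.card_Icc]
        omega
      have hinj : Set.InjOn (fun k : ℤ => k • u) (S : Set ℤ) := by
        intro k _ l _ hkl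
        obtain ⟨j, hj⟩ : ∃ j, u j ≠ 0 := by
          by_contra hcon
          push Not at hcon
          exact hu0 (funext hcon)
        have h3 := congrFun hkl j
        simp only [Pi.smul_apply, smul_eq_mul] at h3
        exact mul_right_cancel₀ hj h3
      have hsub : S.image (fun k : ℤ => k • u) ⊆ F := by
        intro v hv
        rw [Finset.mem_image] at hv
        obtain ⟨k, hk, rfl⟩ := hv
        have hk' := Finset.mem_erase.1 hk
        have hk'' := Finset.mem_Icc.1 hk'.2
        rw [hFmem]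
        refine ⟨smul_ne_zero hk'.1 hu0, ?_⟩
        rw [normSq_smul]
        refine lt_of_le_of_lt (mul_le_mul_of_nonneg_right ?_ (normSq_nonneg A u)) hnw
        have h4 : k ^ 2 ≤ (p : ℤ) ^ 2 := sq_le_sq' hk''.1 hk''.2
        exact_mod_cast h4
      have := Finset.card_le_card hsub
      rw [Finset.card_image_of_injOn hinj, hScard] at this
      omega
    obtain ⟨a, ha0, ha⟩ := exists_residue hn F hneg (fun w hw => ((hFmem w).1 hw).1) hpF hmod
    obtain ⟨k, hk⟩ : ∃ k, a k ≠ 0 := by
      by_contra hcon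
      push Not at hcon
      exact ha0 (funext hcon)
    let b : Fin n → ℤ := fun j => ((a k)⁻¹ * a j).val
    have hbk : b k = 1 := by
      simp only [b]
      rw [inv_mul_cancel₀ hk]
      have : Fact (1 < p) := ⟨hp.one_lt⟩
      rw [ZMod.val_one]
      rfl
    have hb : ∀ j, ((b j : ℤ) : ZMod p) = (a k)⁻¹ * a j := by
      intro j
      simp only [b]
      push_cast
      rw [ZMod.natCast_val, ZMod.cast_id', id]
    refine ⟨A * subMat p k b, p, hp.pos, ?_, ?_, ?_⟩
    · rw [hcard]; exact le_max_of_le_right hpN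
    · rw [Matrix.det_mul, subMat_det, abs_mul, Nat.abs_cast]
    · refine le_minSq hn _ fun w hw => ?_
      rw [← Matrix.mulVec_mulVec]
      obtain ⟨x, hx1, hx2, hx3⟩ := subMat_mulVec p k b hbk w
      rw [hx1]
      have hx0 : x ≠ 0 := by
        rintro rfl
        apply hw
        ext i
        by_cases hi : i = k
        · simp only [Pi.zero_apply, mul_zero, Finset.sum_const_zero] at hx2
          rw [hi]
          exact (mul_eq_zero.1 hx2.symm).resolve_left hp0.ne'
        · rw [← hx3 i hi]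
      by_contra hlt
      push Not at hlt
      have hxF : x ∈ F := (hFmem x).2 ⟨hx0, hlt⟩
      apply ha x hxF
      have h5 := congrArg (fun z : ℤ => (z : ZMod p)) hx2
      push_cast at h5
      rw [ZMod.natCast_self, zero_mul] at h5
      have h6 : ∑ j, ((b j : ℤ) : ZMod p) * ((x j : ℤ) : ZMod p) =
          (a k)⁻¹ * ∑ j, a j * ((x j : ℤ) : ZMod p) := by
        rw [Finset.mul_sum]
        refine Finset.sum_congr rfl fun j _ => ?_
        rw [hb, mul_assoc]
      rw [h5] at h6
      exact (mul_eq_zero.1 h6.symm).resolve_left (inv_ne_zero hk)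

/-- Every lattice has at least `r^(n/2) / (γ_n^(n/2) det L)` nonzero vectors of squared length
less than `r`, as soon as this number exceeds `1`. -/
theorem expurgate {n : ℕ} (hn : 0 < n) (A : Matrix (Fin n) (Fin n) ℝ) (hA : A.det ≠ 0) (r : ℝ) :
    r ≤ gamma n * (|A.det| * (max 1 (nShort A r) : ℕ)) ^ ((2 : ℝ) / n) := by
  obtain ⟨B, p, hp0, hp, hdet, hmin⟩ := exists_sublattice hn A hA r
  have hA0 : 0 < |A.det| := abs_pos.2 hA
  have hp0' : (0 : ℝ) < p := by exact_mod_cast hp0
  have hB0 : 0 < |B.det| := by rw [hdet]; positivity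
  have hB : B.det ≠ 0 := abs_pos.1 hB0
  have h1 := inv_le_gamma hn B hB
  unfold inv at h1
  rw [div_le_iff₀ (Real.rpow_pos_of_pos hB0 _)] at h1
  refine hmin.trans (h1.trans ?_)
  refine mul_le_mul_of_nonneg_left ?_ (gamma_nonneg n)
  refine Real.rpow_le_rpow hB0.le ?_ (by positivity)
  rw [hdet]
  refine mul_le_mul_of_nonneg_left ?_ hA0.le
  exact_mod_cast hp

end Pool.Agent.Lib.MP_ef2672_gt_Tauber
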