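import Pool.Agent.Lib.MP_ef2672_gt_Tauber.Lower

/-!
Direct sums: `γ_{n+m} ≥ γ_n^{n/(n+m)} γ_m^{m/(n+m)}`, and the resulting slow decrease of `γ_n / n`.
-/

namespace Pool.Agent.Lib.MP_ef2672_gt_Tauber

open Filter Topology

/-- The block diagonal matrix of `A` and `B`, indexed by `Fin (n + m)`. -/
noncomputable def direct {n m : ℕ} (A : Matrix (Fin n) (Fin n) ℝ) (B : Matrix (Fin m) (Fin m) ℝ) :
    Matrix (Fin (n + m)) (Fin (n + m)) ℝ :=
  (Matrix.fromBlocks A 0 0 B).submatrix finSumFinEquiv.symm finSumFinEquiv.symm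

lemma direct_det {n m : ℕ} (A : Matrix (Fin n) (Fin n) ℝ) (B : Matrix (Fin m) (Fin m) ℝ) :
    (direct A B).det = A.det * B.det := by
  unfold direct
  rw [Matrix.det_submatrix_equiv_self, Matrix.det_fromBlocks_zero₂₁]

lemma direct_sq {n m : ℕ} (A : Matrix (Fin n) (Fin n) ℝ) (B : Matrix (Fin m) (Fin m) ℝ)
    (w : Fin (n + m) → ℤ) :
    ∑ i, (Matrix.mulVec (direct A B) (fun j => (w j : ℝ))) i ^ 2 =
      ∑ i, (Matrix.mulVec A (fun j => (w (Fin.castAdd m j) : ℝ))) i ^ 2 +
      ∑ i, (Matrix.mulVec B (fun j => (w (Fin.natAdd n j) : ℝ))) i ^ 2 := by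
  rw [← finSumFinEquiv.sum_comp, Fintype.sum_sum_type]
  congr 1
  · refine Finset.sum_congr rfl fun i _ => ?_
    congr 1
    rw [Matrix.mulVec, dotProduct, ← finSumFinEquiv.sum_comp, Fintype.sum_sum_type]
    simp [direct, Matrix.mulVec, dotProduct]
  · refine Finset.sum_congr rfl fun i _ => ?_
    congr 1
    rw [Matrix.mulVec, dotProduct, ← finSumFinEquiv.sum_comp, Fintype.sum_sum_type]
    simp [direct, Matrix.mulVec, dotProduct]

lemma le_minSq_direct {n m : ℕ} (hn : 0 < n) (A : Matrix (Fin n) (Fin n) ℝ)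
    (B : Matrix (Fin m) (Fin m) ℝ) :
    min (minSq A) (minSq B) ≤ minSq (direct A B) := by
  refine le_minSq (by omega) _ fun w hw => ?_
  rw [direct_sq]
  by_cases h1 : (fun j => w (Fin.castAdd m j)) = 0
  · have h2 : (fun j => w (Fin.natAdd n j)) ≠ 0 := by
      intro h2
      apply hw
      ext i
      refine Fin.addCases (fun j => ?_) (fun j => ?_) i
      · exact congrFun h1 j
      · exact congrFun h2 j
    have h3 := minSq_le B (fun j => w (Fin.natAdd n j)) h2
    have h4 : 0 ≤ ∑ i, (Matrix.mulVec A (fun j => (w (Fin.castAdd m j) : ℝ))) i ^ 2 :=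
      Finset.sum_nonneg fun i _ => sq_nonneg _
    exact (min_le_right _ _).trans (by linarith)
  · have h3 := minSq_le A (fun j => w (Fin.castAdd m j)) h1
    have h4 : 0 ≤ ∑ i, (Matrix.mulVec B (fun j => (w (Fin.natAdd n j) : ℝ))) i ^ 2 :=
      Finset.sum_nonneg fun i _ => sq_nonneg _
    exact (min_le_left _ _).trans (by linarith)

lemma minSq_smul {n : ℕ} (hn : 0 < n) (A : Matrix (Fin n) (Fin n) ℝ) (s : ℝ) :
    s ^ 2 * minSq A ≤ minSq (s • A) := by
  refine le_minSq hn _ fun w hw => ?_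
  have h := minSq_le A w hw
  have h1 : ∑ i, (Matrix.mulVec (s • A) (fun j => (w j : ℝ))) i ^ 2
      = s ^ 2 * ∑ i, (Matrix.mulVec A (fun j => (w j : ℝ))) i ^ 2 := by
    rw [Finset.mul_sum]
    refine Finset.sum_congr rfl fun i _ => ?_
    rw [Matrix.smul_mulVec]
    simp only [Pi.smul_apply, smul_eq_mul]
    ring
  rw [h1]
  gcongr

/-- For two lattices of positive invariant the direct sum of suitable multiples gives the
weighted geometric mean. -/
lemma inv_mul_le_gamma {n m : ℕ} (hn : 0 < n) (hm : 0 < m) (A : Matrix (Fin n) (Fin n) ℝ)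
    (B : Matrix (Fin m) (Fin m) ℝ) (hA : A.det ≠ 0) (hB : B.det ≠ 0) :
    inv A ^ ((n : ℝ) / (n + m)) * inv B ^ ((m : ℝ) / (n + m)) ≤ gamma (n + m) := by
  have hn0 : (0 : ℝ) < n := by exact_mod_cast hn
  have hm0 : (0 : ℝ) < m := by exact_mod_cast hm
  rcases (minSq_nonneg A).eq_or_lt with ha | ha
  · have : inv A = 0 := by unfold inv; rw [← ha, zero_div]
    rw [this, Real.zero_rpow (by positivity), zero_mul]
    exact gamma_nonneg _
  rcases (minSq_nonneg B).eq_or_lt with hb | hb
  · have : inv B = 0 := by unfold inv; rw [← hb, zero_div]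
    rw [this, Real.zero_rpow (x := (m : ℝ) / (n + m)) (by positivity), mul_zero]
    exact gamma_nonneg _
  set a := minSq A with haa
  set b := minSq B with hbb
  -- rescale to minimum one
  set s : ℝ := 1 / Real.sqrt a with hs
  set t : ℝ := 1 / Real.sqrt b with ht
  have hsa : s ^ 2 * a = 1 := by
    rw [hs, div_pow, Real.sq_sqrt ha.le]; field_simp
  have htb : t ^ 2 * b = 1 := by
    rw [ht, div_pow, Real.sq_sqrt hb.le]; field_simp
  have hs0 : 0 < s := by rw [hs]; positivity
  have ht0 : 0 < t := by rw [ht]; positivity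
  have h1 : 1 ≤ minSq (direct (s • A) (t • B)) := by
    refine le_trans (le_min ?_ ?_) (le_minSq_direct hn (s • A) (t • B))
    · rw [← hsa]; exact minSq_smul hn A s
    · rw [← htb]; exact minSq_smul hm B t
  have hdet : (direct (s • A) (t • B)).det = (s ^ n * A.det) * (t ^ m * B.det) := by
    rw [direct_det, Matrix.det_smul, Matrix.det_smul, Fintype.card_fin, Fintype.card_fin]
  have hdet0 : (direct (s • A) (t • B)).det ≠ 0 := by
    rw [hdet]; positivity
  have hA0 : 0 < |A.det| := abs_pos.2 hA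
  have hB0 : 0 < |B.det| := abs_pos.2 hB
  refine le_trans ?_ (inv_le_gamma (by omega) _ hdet0)
  unfold inv
  rw [hdet]
  have habs : |s ^ n * A.det * (t ^ m * B.det)| = (s ^ n * |A.det|) * (t ^ m * |B.det|) := by
    rw [abs_mul, abs_mul, abs_mul, abs_of_pos (pow_pos hs0 n), abs_of_pos (pow_pos ht0 m)]
  rw [habs, le_div_iff₀ (by positivity)]
  refine le_trans (le_of_eq ?_) h1
  -- everything equals one after taking logarithms
  have hsqa : s ^ n = a ^ (-((n : ℝ) / 2)) := by
    rw [hs, one_div, Real.sqrt_eq_rpow, ← Real.rpow_neg ha.le, ← Real.rpow_natCast,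
      ← Real.rpow_mul ha.le]
    congr 1; ring
  have hsqb : t ^ m = b ^ (-((m : ℝ) / 2)) := by
    rw [ht, one_div, Real.sqrt_eq_rpow, ← Real.rpow_neg hb.le, ← Real.rpow_natCast,
      ← Real.rpow_mul hb.le]
    congr 1; ring
  rw [hsqa, hsqb]
  apply Real.log_injOn_pos (Set.mem_Ioi.2 (by positivity)) (Set.mem_Ioi.2 one_pos)
  have e1 : (a / |A.det| ^ ((2 : ℝ) / n)) ^ ((n : ℝ) / (n + m)) ≠ 0 := by positivity
  have e2 : (b / |B.det| ^ ((2 : ℝ) / m)) ^ ((m : ℝ) / (n + m)) ≠ 0 := by positivity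
  rw [Real.log_mul (by positivity) (by positivity), Real.log_mul e1 e2,
    Real.log_rpow (by positivity), Real.log_rpow (by positivity),
    Real.log_div ha.ne' (by positivity), Real.log_div hb.ne' (by positivity),
    Real.log_rpow hA0, Real.log_rpow hB0, Real.log_rpow (by positivity),
    Real.log_mul (by positivity) (by positivity), Real.log_mul (by positivity) (by positivity),
    Real.log_mul (by positivity) (by positivity), Real.log_rpow ha, Real.log_rpow hb,
    Real.log_one]
  push_cast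
  field_simp
  ring

theorem gamma_mul_le {n m : ℕ} (hn : 0 < n) (hm : 0 < m) :
    gamma n ^ ((n : ℝ) / (n + m)) * gamma m ^ ((m : ℝ) / (n + m)) ≤ gamma (n + m) := by
  have hn0 : (0 : ℝ) < n := by exact_mod_cast hn
  have hm0 : (0 : ℝ) < m := by exact_mod_cast hm
  have hG : 0 ≤ gamma (n + m) := gamma_nonneg _
  set α : ℝ := (n : ℝ) / (n + m) with hα
  set β : ℝ := (m : ℝ) / (n + m) with hβ
  have hα0 : 0 < α := by positivity
  have hβ0 : 0 < β := by positivity
  -- first the supremum over `A`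
  have step1 : ∀ B : Matrix (Fin m) (Fin m) ℝ, B.det ≠ 0 →
      gamma n ^ α * inv B ^ β ≤ gamma (n + m) := by
    intro B hB
    rcases (inv_nonneg B).eq_or_lt with h | h
    · rw [← h, Real.zero_rpow hβ0.ne', mul_zero]; exact hG
    · have h2 : 0 < inv B ^ β := Real.rpow_pos_of_pos h _
      rw [← le_div_iff₀ h2]
      have h3 : gamma n ≤ (gamma (n + m) / inv B ^ β) ^ (1 / α) := by
        have := nonempty_mat n
        refine ciSup_le fun A => ?_
        have h4 := inv_mul_le_gamma hn hm A.1 B A.2 hB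
        rw [← hα, ← hβ, ← le_div_iff₀ h2] at h4
        calc inv A.1 = (inv A.1 ^ α) ^ (1 / α) := by
              rw [← Real.rpow_mul (inv_nonneg _), mul_one_div_cancel hα0.ne', Real.rpow_one]
          _ ≤ _ := Real.rpow_le_rpow (Real.rpow_nonneg (inv_nonneg _) _) h4 (by positivity)
      calc gamma n ^ α ≤ ((gamma (n + m) / inv B ^ β) ^ (1 / α)) ^ α :=
            Real.rpow_le_rpow (gamma_nonneg _) h3 hα0.le
        _ = gamma (n + m) / inv B ^ β := by
            rw [← Real.rpow_mul (by positivity), one_div_mul_cancel hα0.ne', Real.rpow_one]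
  rcases (gamma_nonneg n).eq_or_lt with h | h
  · rw [← h, Real.zero_rpow hα0.ne', zero_mul]; exact hG
  · have h2 : 0 < gamma n ^ α := Real.rpow_pos_of_pos h _
    rw [mul_comm, ← le_div_iff₀ h2]
    have h3 : gamma m ≤ (gamma (n + m) / gamma n ^ α) ^ (1 / β) := by
      have := nonempty_mat m
      refine ciSup_le fun B => ?_
      have h4 := step1 B.1 B.2
      rw [mul_comm, ← le_div_iff₀ h2] at h4
      calc inv B.1 = (inv B.1 ^ β) ^ (1 / β) := by
            rw [← Real.rpow_mul (inv_nonneg _), mul_one_div_cancel hβ0.ne', Real.rpow_one]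
        _ ≤ _ := Real.rpow_le_rpow (Real.rpow_nonneg (inv_nonneg _) _) h4 (by positivity)
    calc gamma m ^ β ≤ ((gamma (n + m) / gamma n ^ α) ^ (1 / β)) ^ β :=
          Real.rpow_le_rpow (gamma_nonneg _) h3 hβ0.le
      _ = gamma (n + m) / gamma n ^ α := by
          rw [← Real.rpow_mul (by positivity), one_div_mul_cancel hβ0.ne', Real.rpow_one]

lemma c_nonneg (n : ℕ) : 0 ≤ c n := div_nonneg (gamma_nonneg n) (by positivity)

lemma c_le_one (n : ℕ) : c n ≤ 1 := by
  rcases n.eq_zero_or_pos with rfl | hn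
  · simp [c]
  · unfold c
    rw [div_le_one (by exact_mod_cast hn)]
    exact gamma_le hn

lemma c_pos {n : ℕ} (hn : 0 < n) : 0 < c n := by
  have h1 := gamma_ge hn
  have hn0 : (0 : ℝ) < n := by exact_mod_cast hn
  unfold c
  have : 0 < gamma n := lt_of_lt_of_le (by positivity) h1
  positivity

/-- The loss function. -/
noncomputable def loss (x : ℝ) : ℝ :=
  Real.exp (x * Real.log (1 / 576) + ((1 - x) * Real.log (1 - x) + x * Real.log x))

lemma loss_tendsto : Tendsto loss (𝓝 0) (𝓝 1) := by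
  have h : Continuous loss := by
    unfold loss
    refine Real.continuous_exp.comp ?_
    refine (continuous_id.mul continuous_const).add ?_
    exact (Real.continuous_mul_log.comp (continuous_const.sub continuous_id)).add
      Real.continuous_mul_log
  have h0 : loss 0 = 1 := by simp [loss]
  rw [← h0]
  exact h.tendsto 0

lemma c_mul_loss_le {n m : ℕ} (hn : 0 < n) (hm : 0 < m) :
    c n * loss ((m : ℝ) / (n + m)) ≤ c (n + m) := by
  have hn0 : (0 : ℝ) < n := by exact_mod_cast hn
  have hm0 : (0 : ℝ) < m := by exact_mod_cast hm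
  set x : ℝ := (m : ℝ) / (n + m) with hx
  have hx0 : 0 < x := by positivity
  have hx1 : 1 - x = (n : ℝ) / (n + m) := by rw [hx]; field_simp; ring
  have h1x : 0 < 1 - x := by rw [hx1]; positivity
  have hc0 : 0 < c n := c_pos hn
  have hc1 : c n ≤ 1 := c_le_one n
  have hsuper := gamma_mul_le hn hm
  rw [← hx, ← hx1] at hsuper
  have hgm : (m : ℝ) / 576 ≤ gamma m := gamma_ge hm
  have hgn : gamma n = c n * n := by unfold c; field_simp
  have h1 : (c n * n) ^ (1 - x) * ((m : ℝ) / 576) ^ x ≤ gamma (n + m) := by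
    refine le_trans ?_ hsuper
    rw [hgn]
    gcongr
  have h2 : c n ≤ c n ^ (1 - x) := by
    calc c n = c n ^ (1 : ℝ) := (Real.rpow_one _).symm
      _ ≤ c n ^ (1 - x) := Real.rpow_le_rpow_of_exponent_ge hc0 hc1 (by linarith)
  have h3 : loss x * (n + m) = (n : ℝ) ^ (1 - x) * ((m : ℝ) / 576) ^ x := by
    unfold loss
    rw [Real.rpow_def_of_pos hn0, Real.rpow_def_of_pos (by positivity), ← Real.exp_add]
    have h4 : ((n : ℝ) + m) = Real.exp (Real.log (n + m)) :=
      (Real.exp_log (by positivity)).symm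
    rw [h4, ← Real.exp_add]
    congr 1
    have hl1 : Real.log (1 - x) = Real.log n - Real.log (n + m) := by
      rw [hx1, Real.log_div hn0.ne' (by positivity)]
    have hl2 : Real.log x = Real.log m - Real.log (n + m) := by
      rw [hx, Real.log_div hm0.ne' (by positivity)]
    have hl3 : Real.log ((m : ℝ) / 576) = Real.log m + Real.log (1 / 576) := by
      rw [← Real.log_mul hm0.ne' (by norm_num)]
      congr 1; ring
    rw [hl1, hl2, hl3]
    ring
  have h5 : c (n + m) = gamma (n + m) / (n + m) := by unfold c; push_cast; rfl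
  rw [h5, le_div_iff₀ (by positivity), mul_assoc, h3]
  refine le_trans ?_ h1
  rw [Real.mul_rpow hc0.le hn0.le]
  have : 0 ≤ (n : ℝ) ^ (1 - x) * ((m : ℝ) / 576) ^ x := by positivity
  calc c n * ((n : ℝ) ^ (1 - x) * ((m : ℝ) / 576) ^ x)
      ≤ c n ^ (1 - x) * ((n : ℝ) ^ (1 - x) * ((m : ℝ) / 576) ^ x) := by gcongr
    _ = c n ^ (1 - x) * (n : ℝ) ^ (1 - x) * ((m : ℝ) / 576) ^ x := by ring

/-- Slow decrease of `γ_n / n`. -/
theorem slow_decrease (δ : ℝ) (hδ : 0 < δ) :
    ∃ ε : ℝ, 0 < ε ∧ ∀ n m : ℕ, 0 < n → (m : ℝ) ≤ ε * n → c n - δ ≤ c (n + m) := by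
  have h1 : ∀ᶠ x in 𝓝 (0 : ℝ), 1 - δ < loss x := loss_tendsto.eventually_const_lt (by linarith)
  rw [Metric.eventually_nhds_iff] at h1
  obtain ⟨ε, hε, h⟩ := h1
  refine ⟨ε / 2, by positivity, fun n m hn hm => ?_⟩
  rcases m.eq_zero_or_pos with rfl | hm0
  · rw [add_zero]; linarith
  have hn0 : (0 : ℝ) < n := by exact_mod_cast hn
  have hm0' : (0 : ℝ) < m := by exact_mod_cast hm0
  have hx : (m : ℝ) / (n + m) < ε := by
    rw [div_lt_iff₀ (by positivity)]
    nlinarith
  have h2 := h (y := (m : ℝ) / (n + m)) (by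
    rw [Real.dist_eq, sub_zero, abs_of_pos (by positivity)]; exact hx)
  have h3 := c_mul_loss_le hn hm0
  have h4 := c_le_one n
  have h5 := c_nonneg n
  nlinarith

end Pool.Agent.Lib.MP_ef2672_gt_Tauber
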