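import Pool.Agent.Lib.MP_ef2672_gt_Tauber.Upper

/-!
Linear lower bound `γ_n ≥ n / 576`, by an elementary counting argument over the lattices
`{x ∈ ℤⁿ : ∑ x_j t^j ≡ 0 (mod p)}`.
-/

namespace Pool.Agent.Lib.MP_ef2672_gt_Tauber

lemma sum_half_le (N : ℕ) :
    ∑ k ∈ Finset.Icc (-(N : ℤ)) N, (1 / 2 : ℝ) ^ (k.natAbs ^ 2) ≤ 3 - 2 * (1 / 2) ^ N := by
  induction N with
  | zero => simp; norm_num
  | succ N ih =>
    have hset : Finset.Icc (-((N + 1 : ℕ) : ℤ)) ((N + 1 : ℕ) : ℤ)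
        = insert ((N + 1 : ℕ) : ℤ) (insert (-((N + 1 : ℕ) : ℤ)) (Finset.Icc (-(N : ℤ)) N)) := by
      ext k
      simp only [Finset.mem_Icc, Finset.mem_insert]
      omega
    have h1 : ((N + 1 : ℕ) : ℤ) ∉ insert (-((N + 1 : ℕ) : ℤ)) (Finset.Icc (-(N : ℤ)) N) := by
      simp only [Finset.mem_Icc, Finset.mem_insert]
      omega
    have h2 : (-((N + 1 : ℕ) : ℤ)) ∉ (Finset.Icc (-(N : ℤ)) N) := by
      simp only [Finset.mem_Icc]
      omega
    rw [hset, Finset.sum_insert h1, Finset.sum_insert h2]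
    have h3 : (((N + 1 : ℕ) : ℤ)).natAbs = N + 1 := by omega
    have h4 : (-((N + 1 : ℕ) : ℤ)).natAbs = N + 1 := by omega
    rw [h3, h4]
    have h5 : (1 / 2 : ℝ) ^ ((N + 1) ^ 2) ≤ (1 / 2) ^ (N + 1) :=
      pow_le_pow_of_le_one (by norm_num) (by norm_num) (by nlinarith)
    have h6 : (1 / 2 : ℝ) ^ (N + 1) = 1 / 2 * (1 / 2) ^ N := by rw [pow_succ]; ring
    linarith

/-- The nonzero integer vectors with squared length at most `n`. -/
noncomputable def shortVec (n : ℕ) : Finset (Fin n → ℤ) :=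
  open Classical in
  (Fintype.piFinset fun _ => Finset.Icc (-(n : ℤ)) n).filter
    fun x => x ≠ 0 ∧ ∑ i, x i ^ 2 ≤ n

lemma mem_shortVec {n : ℕ} {x : Fin n → ℤ} (hx : x ≠ 0) (h : ∑ i, x i ^ 2 ≤ n) :
    x ∈ shortVec n := by
  classical
  unfold shortVec
  rw [Finset.mem_filter, Fintype.mem_piFinset]
  refine ⟨fun i => ?_, hx, h⟩
  have h1 : x i ^ 2 ≤ n :=
    (Finset.single_le_sum (fun j _ => sq_nonneg (x j)) (Finset.mem_univ i)).trans h
  rw [Finset.mem_Icc]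
  constructor <;> nlinarith [sq_nonneg (x i), sq_nonneg (x i - 1), sq_nonneg (x i + 1)]

lemma card_shortVec (n : ℕ) : (shortVec n).card ≤ 6 ^ n := by
  classical
  have h1 : ((shortVec n).card : ℝ)
      ≤ ∑ x ∈ Fintype.piFinset (fun _ : Fin n => Finset.Icc (-(n : ℤ)) n),
          2 ^ n * ∏ i, (1 / 2 : ℝ) ^ ((x i).natAbs ^ 2) := by
    rw [Finset.card_eq_sum_ones]
    push_cast
    refine (Finset.sum_le_sum (g := fun x : Fin n → ℤ =>
      2 ^ n * ∏ i, (1 / 2 : ℝ) ^ ((x i).natAbs ^ 2)) ?_).trans ?_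
    · intro x hx
      unfold shortVec at hx
      rw [Finset.mem_filter] at hx
      have hs : ∑ i, (x i).natAbs ^ 2 ≤ n := by
        have := hx.2.2
        zify
        simpa [sq_abs] using this
      rw [Finset.prod_pow_eq_pow_sum]
      have h2 : (1 / 2 : ℝ) ^ n ≤ (1 / 2) ^ (∑ i, (x i).natAbs ^ 2) :=
        pow_le_pow_of_le_one (by norm_num) (by norm_num) hs
      calc (1 : ℝ) = 2 ^ n * (1 / 2) ^ n := by rw [← mul_pow]; norm_num
        _ ≤ _ := by gcongr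
    · refine Finset.sum_le_sum_of_subset_of_nonneg (Finset.filter_subset _ _) ?_
      intro x _ _
      positivity
  have h2 : ∑ x ∈ Fintype.piFinset (fun _ : Fin n => Finset.Icc (-(n : ℤ)) n),
      2 ^ n * ∏ i, (1 / 2 : ℝ) ^ ((x i).natAbs ^ 2) ≤ 6 ^ n := by
    rw [← Finset.mul_sum,
      ← Finset.prod_univ_sum (fun _ : Fin n => Finset.Icc (-(n : ℤ)) n)
        (fun _ k => (1 / 2 : ℝ) ^ (k.natAbs ^ 2))]
    rw [Finset.prod_const, Finset.card_univ, Fintype.card_fin]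
    have h3 : ∑ k ∈ Finset.Icc (-(n : ℤ)) n, (1 / 2 : ℝ) ^ (k.natAbs ^ 2) ≤ 3 := by
      have := sum_half_le n
      have h4 : (0 : ℝ) ≤ 2 * (1 / 2) ^ n := by positivity
      linarith
    calc (2 : ℝ) ^ n * (∑ k ∈ Finset.Icc (-(n : ℤ)) n, (1 / 2 : ℝ) ^ (k.natAbs ^ 2)) ^ n
        ≤ 2 ^ n * 3 ^ n := by
          gcongr
      _ = 6 ^ n := by rw [← mul_pow]; norm_num
  exact_mod_cast h1.trans h2

open Polynomial in
/-- There is a residue `t` such that no nonzero short vector satisfies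
`∑ x_j t^j = 0` modulo `p`. -/
lemma exists_good {n p : ℕ} (hn : 0 < n) (hp : p.Prime) (hnp : n * 6 ^ n < p) :
    ∃ t : ZMod p, ∀ x ∈ shortVec n, ∑ j, (x j : ZMod p) * t ^ (j : ℕ) ≠ 0 := by
  classical
  have : Fact p.Prime := ⟨hp⟩
  let P : (Fin n → ℤ) → (ZMod p)[X] := fun x => ∑ j : Fin n, C (x j : ZMod p) * X ^ (j : ℕ)
  let bad : Finset (ZMod p) := (shortVec n).biUnion fun x => (P x).roots.toFinset
  have hnlt : n < p := by
    have : 1 ≤ 6 ^ n := Nat.one_le_pow _ _ (by norm_num)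
    nlinarith
  have hcoeff : ∀ x : Fin n → ℤ, ∀ j : Fin n, (P x).coeff j = (x j : ZMod p) := by
    intro x j
    simp only [P, finsetSum_coeff, coeff_C_mul, coeff_X_pow]
    rw [Finset.sum_eq_single j]
    · simp
    · intro i _ hij
      rw [if_neg]
      · simp
      · intro h
        exact hij (Fin.ext h.symm)
    · simp
  have hP0 : ∀ x ∈ shortVec n, P x ≠ 0 := by
    intro x hx h0
    unfold shortVec at hx
    rw [Finset.mem_filter, Fintype.mem_piFinset] at hx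
    apply hx.2.1
    ext j
    have h1 : ((x j : ℤ) : ZMod p) = 0 := by rw [← hcoeff x j, h0, coeff_zero]
    rw [ZMod.intCast_zmod_eq_zero_iff_dvd] at h1
    have h2 := Finset.mem_Icc.1 (hx.1 j)
    have h3 : |x j| < (p : ℤ) := by
      rw [abs_lt]
      constructor <;> omega
    exact Int.eq_zero_of_abs_lt_dvd h1 h3
  have hdeg : ∀ x : Fin n → ℤ, (P x).natDegree ≤ n := by
    intro x
    refine natDegree_sum_le_of_forall_le _ _ fun j _ => ?_
    refine (natDegree_C_mul_X_pow_le _ _).trans j.2.le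
  have hbad : bad.card < Fintype.card (ZMod p) := by
    rw [ZMod.card]
    refine lt_of_le_of_lt ?_ hnp
    refine Finset.card_biUnion_le.trans ?_
    calc ∑ x ∈ shortVec n, ((P x).roots.toFinset).card ≤ ∑ _x ∈ shortVec n, n := by
          refine Finset.sum_le_sum fun x _ => ?_
          exact (Multiset.toFinset_card_le _).trans ((card_roots' _).trans (hdeg x))
      _ = (shortVec n).card * n := by rw [Finset.sum_const, smul_eq_mul]
      _ ≤ 6 ^ n * n := Nat.mul_le_mul_right _ (card_shortVec n)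
      _ = n * 6 ^ n := mul_comm _ _
  obtain ⟨t, ht⟩ : ∃ t : ZMod p, t ∉ bad := by
    by_contra hcon
    push Not at hcon
    have : bad = Finset.univ := Finset.eq_univ_iff_forall.2 hcon
    rw [this, Finset.card_univ] at hbad
    exact lt_irrefl _ hbad
  refine ⟨t, fun x hx h0 => ht ?_⟩
  simp only [bad, Finset.mem_biUnion, Multiset.mem_toFinset]
  refine ⟨x, hx, ?_⟩
  rw [mem_roots (hP0 x hx), IsRoot.def]
  simp only [P, eval_finsetSum, eval_mul, eval_C, eval_pow, eval_X]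
  exact h0

/-- The basis matrix of the lattice `{x ∈ ℤⁿ : ∑ x_j t^j ≡ 0 (mod p)}`. -/
noncomputable def latMat (n p T : ℕ) : Matrix (Fin n) (Fin n) ℝ := fun i j =>
  if (i : ℕ) = 0 then (if (j : ℕ) = 0 then (p : ℝ) else -((T : ℝ) ^ (j : ℕ)))
  else if i = j then 1 else 0

lemma latMat_det {n : ℕ} (hn : 0 < n) (p T : ℕ) : (latMat n p T).det = p := by
  have htri : (latMat n p T).IsUpperTriangular := by
    intro i j hij
    have hij' : (j : ℕ) < (i : ℕ) := hij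
    unfold latMat
    rw [if_neg (by omega), if_neg (by intro h; rw [h] at hij'; omega)]
  rw [Matrix.det_of_isUpperTriangular htri]
  rw [Finset.prod_eq_single (⟨0, hn⟩ : Fin n)]
  · simp [latMat]
  · intro i _ hi
    have : (i : ℕ) ≠ 0 := fun h => hi (Fin.ext h)
    simp [latMat, this]
  · simp

lemma latMat_mulVec {n : ℕ} (hn : 0 < n) (p T : ℕ) (w : Fin n → ℤ) :
    ∃ x : Fin n → ℤ, (Matrix.mulVec (latMat n p T) (fun j => (w j : ℝ))) = (fun i => (x i : ℝ)) ∧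
      (∑ j, x j * (T : ℤ) ^ (j : ℕ) = p * w ⟨0, hn⟩) ∧ (∀ i : Fin n, (i : ℕ) ≠ 0 → x i = w i) := by
  classical
  let x : Fin n → ℤ := fun i =>
    if (i : ℕ) = 0 then p * w ⟨0, hn⟩ - ∑ j ∈ Finset.univ.erase (⟨0, hn⟩ : Fin n),
      w j * (T : ℤ) ^ (j : ℕ)
    else w i
  refine ⟨x, ?_, ?_, ?_⟩
  · ext i
    rw [Matrix.mulVec, dotProduct]
    by_cases hi : (i : ℕ) = 0
    · simp only [x, if_pos hi, latMat]
      rw [← Finset.add_sum_erase _ _ (Finset.mem_univ (⟨0, hn⟩ : Fin n))]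
      push_cast
      rw [sub_eq_add_neg, ← Finset.sum_neg_distrib]
      congr 1
      refine Finset.sum_congr rfl fun j hj => ?_
      have : (j : ℕ) ≠ 0 := fun h => (Finset.ne_of_mem_erase hj) (Fin.ext h)
      rw [if_neg this]
      ring
    · simp only [x, if_neg hi, latMat]
      rw [Finset.sum_eq_single i]
      · simp
      · intro j _ hj
        rw [if_neg (Ne.symm hj)]
        simp
      · simp
  · rw [← Finset.add_sum_erase _ _ (Finset.mem_univ (⟨0, hn⟩ : Fin n))]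
    have h1 : ∑ j ∈ Finset.univ.erase (⟨0, hn⟩ : Fin n), x j * (T : ℤ) ^ (j : ℕ)
        = ∑ j ∈ Finset.univ.erase (⟨0, hn⟩ : Fin n), w j * (T : ℤ) ^ (j : ℕ) := by
      refine Finset.sum_congr rfl fun j hj => ?_
      have : (j : ℕ) ≠ 0 := fun h => (Finset.ne_of_mem_erase hj) (Fin.ext h)
      simp only [x, if_neg this]
    rw [h1]
    simp [x]
  · intro i hi
    simp [x, hi]

lemma minSq_latMat {n p : ℕ} (hn : 0 < n) (hp : p.Prime) (hnp : n * 6 ^ n < p) :
    ∃ T : ℕ, (n : ℝ) ≤ minSq (latMat n p T) := by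
  classical
  have : Fact p.Prime := ⟨hp⟩
  obtain ⟨t, ht⟩ := exists_good hn hp hnp
  refine ⟨t.val, le_minSq hn _ fun w hw => ?_⟩
  obtain ⟨x, hx1, hx2, hx3⟩ := latMat_mulVec hn p t.val w
  rw [hx1]
  have hx0 : x ≠ 0 := by
    rintro rfl
    apply hw
    ext i
    by_cases hi : (i : ℕ) = 0
    · simp only [Pi.zero_apply, zero_mul, Finset.sum_const_zero] at hx2
      have hi' : i = ⟨0, hn⟩ := Fin.ext hi
      rw [hi']
      have hp0 : (p : ℤ) ≠ 0 := by exact_mod_cast hp.ne_zero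
      exact (mul_eq_zero.1 hx2.symm).resolve_left hp0
    · rw [← hx3 i hi]
  have hnot : x ∉ shortVec n := by
    intro hmem
    apply ht x hmem
    have h1 := congrArg (fun z : ℤ => (z : ZMod p)) hx2
    push_cast at h1
    rw [ZMod.natCast_self, zero_mul] at h1
    rw [← h1]
    refine Finset.sum_congr rfl fun j _ => ?_
    rw [ZMod.natCast_val, ZMod.cast_id', id]
  have hlt : ¬ ∑ i, x i ^ 2 ≤ (n : ℤ) := fun h => hnot (mem_shortVec hx0 h)
  push Not at hlt
  have h2 : (n : ℝ) < ∑ i, (x i : ℝ) ^ 2 := by exact_mod_cast hlt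
  exact h2.le

theorem gamma_ge {n : ℕ} (hn : 0 < n) : (n : ℝ) / 576 ≤ gamma n := by
  have hN : n * 6 ^ n ≠ 0 := by positivity
  obtain ⟨p, hp, hlt, hle⟩ := Nat.exists_prime_lt_and_le_two_mul _ hN
  obtain ⟨T, hT⟩ := minSq_latMat hn hp hlt
  have hdet := latMat_det hn p T
  have hp0 : (0 : ℝ) < p := by exact_mod_cast hp.pos
  have hdet0 : (latMat n p T).det ≠ 0 := by rw [hdet]; exact hp0.ne'
  refine le_trans ?_ (inv_le_gamma hn _ hdet0)
  unfold inv
  rw [hdet, abs_of_pos hp0]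
  have hp24 : (p : ℝ) ≤ 24 ^ n := by
    have h1 : 2 * n ≤ 4 ^ n := by
      have h2 : n ≤ 2 ^ n := Nat.lt_two_pow_self.le
      have h3 : 2 ≤ 2 ^ n := by
        calc 2 = 2 ^ 1 := rfl
          _ ≤ 2 ^ n := Nat.pow_le_pow_right (by norm_num) hn
      calc 2 * n ≤ 2 ^ n * 2 ^ n := Nat.mul_le_mul h3 h2
        _ = 4 ^ n := by rw [← mul_pow]; norm_num
    have h4 : p ≤ 24 ^ n := by
      calc p ≤ 2 * (n * 6 ^ n) := hle
        _ = (2 * n) * 6 ^ n := by ring
        _ ≤ 4 ^ n * 6 ^ n := Nat.mul_le_mul_right _ h1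
        _ = 24 ^ n := by rw [← mul_pow]; norm_num
    exact_mod_cast h4
  have hn' : (n : ℝ) ≠ 0 := by exact_mod_cast hn.ne'
  have hpow : (p : ℝ) ^ ((2 : ℝ) / n) ≤ 576 := by
    calc (p : ℝ) ^ ((2 : ℝ) / n) ≤ ((24 : ℝ) ^ n) ^ ((2 : ℝ) / n) :=
          Real.rpow_le_rpow hp0.le hp24 (by positivity)
      _ = (24 : ℝ) ^ (2 : ℝ) := by
          rw [← Real.rpow_natCast, ← Real.rpow_mul (by norm_num)]
          congr 1
          field_simp
      _ = 576 := by norm_num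
  have hpow0 : (0 : ℝ) < (p : ℝ) ^ ((2 : ℝ) / n) := Real.rpow_pos_of_pos hp0 _
  rw [div_le_div_iff₀ (by norm_num) hpow0]
  have hn0 : (0 : ℝ) ≤ n := by positivity
  calc (n : ℝ) * (p : ℝ) ^ ((2 : ℝ) / n) ≤ n * 576 := by gcongr
    _ ≤ minSq (latMat n p T) * 576 := by gcongr

end Pool.Agent.Lib.MP_ef2672_gt_Tauber
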