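import Pool.Agent.Lib.MP_ef2672_gt_Tauber.Tauber

/-!
Main statements for Hermite's constant.
-/

namespace Pool.Agent.Lib.MP_ef2672_gt_Tauber

open Filter Topology

theorem slow_c : SlowDecrease c := slow_decrease

lemma bounds_c (n : ℕ) : 0 ≤ c n ∧ c n ≤ 1 := ⟨c_nonneg n, c_le_one n⟩

open Classical in
/-- Values above anything smaller than the upper limit are taken on a set of positive upper
density. -/
theorem upper_density_gt {u : ℕ → ℝ} (hu : SlowDecrease u) (hb : ∀ n, 0 ≤ u n ∧ u n ≤ 1)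
    (x : ℝ) (hx : x < limsup u atTop) :
    ∃ κ : ℝ, 0 < κ ∧ ∃ᶠ N : ℕ in atTop,
      κ * N ≤ (((Finset.range N).filter fun n => x < u n).card : ℝ) := by
  have hbd1 : IsBoundedUnder (· ≥ ·) atTop u := ⟨0, by simp [hb]⟩
  have hcb2 : IsCoboundedUnder (· ≤ ·) atTop u := hbd1.isCoboundedUnder_le
  obtain ⟨y, hxy, hy⟩ := exists_between hx
  obtain ⟨ε₁, hε₁, hsd⟩ := hu (y - x) (by linarith)
  set ε : ℝ := min ε₁ 1 with hεdef
  have hε : 0 < ε := by positivity
  have hε1 : ε ≤ 1 := min_le_right _ _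
  have hεε : ε ≤ ε₁ := min_le_left _ _
  have hfr : ∃ᶠ n in atTop, y < u n := frequently_lt_of_lt_limsup hcb2 hy
  refine ⟨ε / 4, by positivity, ?_⟩
  have hbig : ∀ᶠ n : ℕ in atTop, 4 ≤ ε * n := by
    have : Tendsto (fun n : ℕ => ε * (n : ℝ)) atTop atTop :=
      tendsto_natCast_atTop_atTop.const_mul_atTop hε
    exact this.eventually_ge_atTop 4
  rw [frequently_atTop] at hfr ⊢
  intro a
  obtain ⟨N1, hN1⟩ := eventually_atTop.1 (hbig.and (eventually_gt_atTop 0))
  obtain ⟨n, hn, hun⟩ := hfr (a + N1)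
  obtain ⟨h4, hn0⟩ := hN1 n (by omega)
  have hn0' : (0 : ℝ) < n := by exact_mod_cast hn0
  set m : ℕ := ⌊ε * n⌋₊ with hm
  have hm1 : (m : ℝ) ≤ ε * n := Nat.floor_le (by positivity)
  have hm2 : ε * n < m + 1 := Nat.lt_floor_add_one _
  refine ⟨n + m, by omega, ?_⟩
  have hsub : (Finset.range m).image (fun k => n + k)
      ⊆ (Finset.range (n + m)).filter fun n => x < u n := by
    intro j hj
    rw [Finset.mem_image] at hj
    obtain ⟨k, hk, rfl⟩ := hj
    rw [Finset.mem_range] at hk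
    rw [Finset.mem_filter, Finset.mem_range]
    refine ⟨by omega, ?_⟩
    have hk' : (k : ℝ) ≤ m := by exact_mod_cast hk.le
    have h5 := hsd n k hn0 (by nlinarith)
    linarith
  have hcard := Finset.card_le_card hsub
  rw [Finset.card_image_of_injective _ (fun a b h => by simpa using h), Finset.card_range] at hcard
  have hcard' : (m : ℝ) ≤ (((Finset.range (n + m)).filter fun n => x < u n).card : ℝ) := by
    exact_mod_cast hcard
  refine le_trans ?_ hcard'
  push_cast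
  nlinarith

open Classical in
/-- Values below anything larger than the lower limit are taken on a set of positive upper
density. -/
theorem upper_density_lt {u : ℕ → ℝ} (hu : SlowDecrease u) (hb : ∀ n, 0 ≤ u n ∧ u n ≤ 1)
    (x : ℝ) (hx : liminf u atTop < x) :
    ∃ κ : ℝ, 0 < κ ∧ ∃ᶠ N : ℕ in atTop,
      κ * N ≤ (((Finset.range N).filter fun n => u n < x).card : ℝ) := by
  have hbd2 : IsBoundedUnder (· ≤ ·) atTop u := ⟨1, by simp [hb]⟩
  have hcb1 : IsCoboundedUnder (· ≥ ·) atTop u := hbd2.isCoboundedUnder_ge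
  obtain ⟨y, hy, hxy⟩ := exists_between hx
  obtain ⟨ε₁, hε₁, hsd⟩ := hu (x - y) (by linarith)
  set ε : ℝ := min ε₁ 1 with hεdef
  have hε : 0 < ε := by positivity
  have hε1 : ε ≤ 1 := min_le_right _ _
  have hεε : ε ≤ ε₁ := min_le_left _ _
  have hfr : ∃ᶠ n in atTop, u n < y := frequently_lt_of_liminf_lt hcb1 hy
  refine ⟨ε / 4, by positivity, ?_⟩
  have hbig : ∀ᶠ n : ℕ in atTop, 4 ≤ ε * n := by
    have : Tendsto (fun n : ℕ => ε * (n : ℝ)) atTop atTop :=
      tendsto_natCast_atTop_atTop.const_mul_atTop hε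
    exact this.eventually_ge_atTop 4
  rw [frequently_atTop] at hfr ⊢
  intro a
  obtain ⟨N1, hN1⟩ := eventually_atTop.1 (hbig.and (eventually_gt_atTop 0))
  obtain ⟨n, hn, hun⟩ := hfr (a + N1)
  obtain ⟨h4, hn0⟩ := hN1 n (by omega)
  have hn0' : (0 : ℝ) < n := by exact_mod_cast hn0
  set m : ℕ := ⌊ε / 2 * n⌋₊ with hm
  have hm1 : (m : ℝ) ≤ ε / 2 * n := Nat.floor_le (by positivity)
  have hm2 : ε / 2 * n < m + 1 := Nat.lt_floor_add_one _
  have hmn : (m : ℝ) ≤ n / 2 := by nlinarith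
  have hmn' : 2 * m ≤ n := by
    have : (2 * m : ℝ) ≤ n := by linarith
    exact_mod_cast this
  have hcast : ((n - m : ℕ) : ℝ) = n - m := by
    rw [Nat.cast_sub (by omega)]
  refine ⟨n, by omega, ?_⟩
  have hsub : (Finset.range m).image (fun k => n - m + k)
      ⊆ (Finset.range n).filter fun n => u n < x := by
    intro j hj
    rw [Finset.mem_image] at hj
    obtain ⟨k, hk, rfl⟩ := hj
    rw [Finset.mem_range] at hk
    rw [Finset.mem_filter, Finset.mem_range]
    refine ⟨by omega, ?_⟩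
    have h6 := hsd (n - m + k) (m - k) (by omega) (by
      rw [Nat.cast_sub hk.le]
      push_cast
      rw [hcast]
      have : (0 : ℝ) ≤ k := by positivity
      nlinarith)
    have h7 : n - m + k + (m - k) = n := by omega
    rw [h7] at h6
    linarith
  have hcard := Finset.card_le_card hsub
  rw [Finset.card_image_of_injective _ (fun a b h => by simpa using h), Finset.card_range] at hcard
  have hcard' : (m : ℝ) ≤ (((Finset.range n).filter fun n => u n < x).card : ℝ) := by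
    exact_mod_cast hcard
  refine le_trans ?_ hcard'
  linarith

open Classical in
lemma card_filter_eq (N : ℕ) (p : ℕ → Prop) :
    (((Finset.range N).filter p).card : ℝ) = (Set.ncard {n : ℕ | n < N ∧ p n} : ℝ) := by
  rw [← Set.ncard_coe_finset]
  congr 2
  ext n
  simp

theorem main :
    (∀ x : ℝ, MapClusterPt x atTop c ↔ x ∈ Set.Icc (liminf c atTop) (limsup c atTop)) ∧
    (∀ (S : Set ℕ) (l : ℝ),
      (∀ ε : ℝ, 0 < ε → ∀ᶠ n : ℕ in atTop, ∃ s ∈ S, n ≤ s ∧ (s : ℝ) ≤ (1 + ε) * n) →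
      Tendsto c (atTop ⊓ 𝓟 S) (𝓝 l) → Tendsto c atTop (𝓝 l)) ∧
    (∀ l : ℝ, Tendsto (fun N : ℕ => (∑ n ∈ Finset.range N, c n) / N) atTop (𝓝 l) ↔
      Tendsto c atTop (𝓝 l)) ∧
    (∀ x : ℝ, x < limsup c atTop → ∃ κ : ℝ, 0 < κ ∧ ∃ᶠ N : ℕ in atTop,
      κ * N ≤ (Set.ncard {n : ℕ | n < N ∧ x < c n} : ℝ)) ∧
    (∀ x : ℝ, liminf c atTop < x → ∃ κ : ℝ, 0 < κ ∧ ∃ᶠ N : ℕ in atTop,
      κ * N ≤ (Set.ncard {n : ℕ | n < N ∧ c n < x} : ℝ)) := by
  refine ⟨clusterPt_iff slow_c bounds_c, fun S l => tendsto_of_dense slow_c S l,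
    fun l => cesaro_iff slow_c l, fun x hx => ?_, fun x hx => ?_⟩
  · obtain ⟨κ, hκ, h⟩ := upper_density_gt slow_c bounds_c x hx
    refine ⟨κ, hκ, h.mono fun N hN => ?_⟩
    rwa [card_filter_eq] at hN
  · obtain ⟨κ, hκ, h⟩ := upper_density_lt slow_c bounds_c x hx
    refine ⟨κ, hκ, h.mono fun N hN => ?_⟩
    rwa [card_filter_eq] at hN

end Pool.Agent.Lib.MP_ef2672_gt_Tauber
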