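import Pool.Agent.Lib.MP_ef2672_gt_Tauber.Counts
import Pool.Agent.Lib.MP_ef2672_gt_Tauber.Main

/-!
Adding one very short direction: lower bounds for the relaxed Hermite constants.
-/

namespace Pool.Agent.Lib.MP_ef2672_gt_Tauber

open Filter Topology

/-- The lattice `t A ℤⁿ ⊕ t⁻ⁿ ℤ`. -/
noncomputable def dilute {n : ℕ} (A : Matrix (Fin n) (Fin n) ℝ) (t : ℝ) :
    Matrix (Fin (n + 1)) (Fin (n + 1)) ℝ :=
  direct (t • A) (((t ^ n)⁻¹) • (1 : Matrix (Fin 1) (Fin 1) ℝ))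

lemma dilute_det {n : ℕ} (A : Matrix (Fin n) (Fin n) ℝ) {t : ℝ} (ht : 0 < t) :
    (dilute A t).det = A.det := by
  unfold dilute
  rw [direct_det, Matrix.det_smul, Matrix.det_smul, Fintype.card_fin, Fintype.card_fin,
    Matrix.det_one, pow_one, mul_one, mul_comm (t ^ n) A.det, mul_assoc,
    mul_inv_cancel₀ (pow_pos ht n).ne', mul_one]

/-- Every short vector of `dilute A t` lies in the additional direction. -/
lemma nShort_dilute {n : ℕ} (A : Matrix (Fin n) (Fin n) ℝ) {t r : ℝ} (ht : 0 < t)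
    (hr : r ≤ t ^ 2 * minSq A) {K : ℕ} (hK : 2 * (Real.sqrt r * t ^ n) ≤ K + 1) :
    nShort (dilute A t) r ≤ K := by
  classical
  unfold nShort
  set S : Set (Fin (n + 1) → ℤ) := {w : Fin (n + 1) → ℤ | w ≠ 0 ∧
    ∑ i, (Matrix.mulVec (dilute A t) (fun j => (w j : ℝ))) i ^ 2 < r} with hS
  set M : ℤ := ((K / 2 : ℕ) : ℤ) with hM
  set T : Finset ℤ := (Finset.Icc (-M) M).erase 0 with hT
  have hcard : T.card ≤ K := by
    rw [hT, Finset.card_erase_of_mem (by rw [Finset.mem_Icc]; omega), Int.card_Icc]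
    omega
  have key : ∀ w ∈ S, (fun j => w (Fin.castAdd 1 j)) = 0 ∧ w (Fin.natAdd n 0) ∈ T := by
    rintro w ⟨hw, hlt⟩
    unfold dilute at hlt
    rw [direct_sq] at hlt
    have h0 : 0 ≤ ∑ i, (Matrix.mulVec (t • A) (fun j => (w (Fin.castAdd 1 j) : ℝ))) i ^ 2 :=
      Finset.sum_nonneg fun i _ => sq_nonneg _
    have h1 : ∑ i, (Matrix.mulVec (((t ^ n)⁻¹) • (1 : Matrix (Fin 1) (Fin 1) ℝ))
        (fun j => (w (Fin.natAdd n j) : ℝ))) i ^ 2
          = ((t ^ n)⁻¹) ^ 2 * (w (Fin.natAdd n 0) : ℝ) ^ 2 := by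
      rw [Matrix.smul_mulVec, Matrix.one_mulVec]
      simp [mul_pow]
    rw [h1] at hlt
    have hz : (fun j => w (Fin.castAdd 1 j)) = 0 := by
      by_contra hne
      have h2 := minSq_le A (fun j => w (Fin.castAdd 1 j)) hne
      have h3 : ∑ i, (Matrix.mulVec (t • A) (fun j => (w (Fin.castAdd 1 j) : ℝ))) i ^ 2
          = t ^ 2 * ∑ i, (Matrix.mulVec A (fun j => (w (Fin.castAdd 1 j) : ℝ))) i ^ 2 :=
        normSq_scale A t (fun j => w (Fin.castAdd 1 j))
      rw [h3] at hlt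
      have h4 : 0 ≤ ((t ^ n)⁻¹) ^ 2 * (w (Fin.natAdd n 0) : ℝ) ^ 2 := by positivity
      have h5 : t ^ 2 * minSq A ≤
          t ^ 2 * ∑ i, (Matrix.mulVec A (fun j => (w (Fin.castAdd 1 j) : ℝ))) i ^ 2 :=
        mul_le_mul_of_nonneg_left h2 (by positivity)
      linarith
    refine ⟨hz, ?_⟩
    have hk0 : w (Fin.natAdd n 0) ≠ 0 := by
      intro h
      apply hw
      ext i
      refine Fin.addCases (fun j => ?_) (fun j => ?_) i
      · exact congrFun hz j
      · have : j = 0 := Subsingleton.elim _ _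
        rw [this]; exact h
    set k : ℤ := w (Fin.natAdd n 0) with hk
    have h6 : ((t ^ n)⁻¹) ^ 2 * (k : ℝ) ^ 2 < r := by linarith
    have hr0 : 0 ≤ r := le_trans (by positivity) h6.le
    have h7 : (k : ℝ) ^ 2 < (Real.sqrt r * t ^ n) ^ 2 := by
      rw [mul_pow, Real.sq_sqrt hr0]
      have h8 : (0 : ℝ) < (t ^ n) ^ 2 := by positivity
      have h9 : (k : ℝ) ^ 2 = (((t ^ n)⁻¹) ^ 2 * (k : ℝ) ^ 2) * (t ^ n) ^ 2 := by
        field_simp
      rw [h9]
      exact mul_lt_mul_of_pos_right h6 h8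
    have h8 : |(k : ℝ)| < Real.sqrt r * t ^ n := by
      rw [← abs_of_nonneg (show 0 ≤ Real.sqrt r * t ^ n by positivity)]
      exact sq_lt_sq.1 h7
    have h9 : 2 * |k| < K + 1 := by
      have : (2 : ℝ) * |(k : ℝ)| < K + 1 := by linarith
      exact_mod_cast this
    rw [hT, Finset.mem_erase, Finset.mem_Icc]
    refine ⟨hk0, ?_⟩
    rw [← abs_le]
    omega
  calc S.ncard ≤ (T : Set ℤ).ncard := by
        refine Set.ncard_le_ncard_of_injOn (fun w => w (Fin.natAdd n 0)) (fun w hw => ?_) ?_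
          T.finite_toSet
        · exact (key w hw).2
        · intro w hw w' hw' he
          have h1 := (key w hw).1
          have h2 := (key w' hw').1
          ext i
          refine Fin.addCases (fun j => ?_) (fun j => ?_) i
          · exact (congrFun h1 j).trans (congrFun h2 j).symm
          · have : j = 0 := Subsingleton.elim _ _
            rw [this]; exact he
    _ = T.card := Set.ncard_coe_finset T
    _ ≤ K := hcard

/-- The normalised matrix of covolume one. -/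
lemma exists_normalise {n : ℕ} (hn : 0 < n) (A : Matrix (Fin n) (Fin n) ℝ) (hA : A.det ≠ 0) :
    ∃ B : Matrix (Fin n) (Fin n) ℝ, |B.det| = 1 ∧ inv A ≤ minSq B := by
  have hA0 : 0 < |A.det| := abs_pos.2 hA
  set t : ℝ := |A.det| ^ (-(1 : ℝ) / n) with ht
  have ht0 : 0 < t := Real.rpow_pos_of_pos hA0 _
  have hn' : (n : ℝ) ≠ 0 := by exact_mod_cast hn.ne'
  have htn : t ^ n * |A.det| = 1 := by
    rw [ht, ← Real.rpow_natCast, ← Real.rpow_mul hA0.le]
    have : -(1 : ℝ) / n * n = -1 := by field_simp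
    rw [this, Real.rpow_neg_one, inv_mul_cancel₀ hA0.ne']
  refine ⟨t • A, ?_, ?_⟩
  · rw [Matrix.det_smul, Fintype.card_fin, abs_mul, abs_of_pos (pow_pos ht0 n), htn]
  · refine le_trans (le_of_eq ?_) (minSq_smul hn A t)
    unfold inv
    have ht2 : t ^ 2 * |A.det| ^ ((2 : ℝ) / n) = 1 := by
      rw [ht, ← Real.rpow_natCast, ← Real.rpow_mul hA0.le, ← Real.rpow_add hA0]
      have : -(1 : ℝ) / n * (2 : ℕ) + 2 / n = 0 := by push_cast; ring
      rw [this, Real.rpow_zero]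
    have hP : 0 < |A.det| ^ ((2 : ℝ) / n) := Real.rpow_pos_of_pos hA0 _
    rw [div_eq_iff hP.ne']
    calc minSq A = minSq A * (t ^ 2 * |A.det| ^ ((2 : ℝ) / n)) := by rw [ht2, mul_one]
      _ = _ := by ring

lemma minSqK_le_gammaK {n : ℕ} (K : ℕ) (hn : 0 < n) (A : Matrix (Fin n) (Fin n) ℝ)
    (hA : |A.det| = 1) : minSqK K A ≤ gammaK K n := by
  have hA0 : A.det ≠ 0 := by
    intro h; rw [h, abs_zero] at hA; exact zero_ne_one hA
  refine le_trans (le_of_eq ?_) (le_ciSup (f := fun A : {A : Matrix (Fin n) (Fin n) ℝ //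
    A.det ≠ 0} => minSqK K A.1 / |A.1.det| ^ ((2 : ℝ) / (n : ℝ)))
    ⟨_, by rintro _ ⟨A, rfl⟩; exact ratioK_le K hn A.1 A.2⟩ ⟨A, hA0⟩)
  show minSqK K A = minSqK K A / |A.det| ^ ((2 : ℝ) / (n : ℝ))
  rw [hA, Real.one_rpow, div_one]

lemma le_minSqK {n : ℕ} {K : ℕ} (hn : 0 < n) (A : Matrix (Fin n) (Fin n) ℝ)
    (hA : A.det ≠ 0) {r : ℝ} (hr : nShort A r ≤ K) : r ≤ minSqK K A :=
  le_csSup ⟨_, fun _ hr => mem_le hn A hA hr⟩ hr

lemma gammaK_nonneg {n : ℕ} (K : ℕ) (hn : 0 < n) : 0 ≤ gammaK K n :=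
  (gamma_nonneg n).trans (gamma_le_gammaK K hn)

/-- The lower bound for the relaxed constants. -/
theorem gammaK_ge {n : ℕ} (K : ℕ) (hn : 0 < n) :
    gamma n * (((K : ℝ) + 1) / (2 * Real.sqrt n)) ^ ((2 : ℝ) / ((n : ℝ) + 1)) ≤
      gammaK K (n + 1) := by
  have hn0 : (0 : ℝ) < n := by exact_mod_cast hn
  have hsn : 0 < Real.sqrt n := Real.sqrt_pos.2 hn0
  have hK0 : (0 : ℝ) < (K : ℝ) + 1 := by positivity
  set F : ℝ := (((K : ℝ) + 1) / (2 * Real.sqrt n)) ^ ((2 : ℝ) / ((n : ℝ) + 1)) with hF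
  have hF0 : 0 < F := by rw [hF]; positivity
  have := nonempty_mat n
  rw [← le_div_iff₀ hF0]
  refine ciSup_le fun A => ?_
  rw [le_div_iff₀ hF0]
  obtain ⟨B, hB, hAB⟩ := exists_normalise hn A.1 A.2
  refine (mul_le_mul_of_nonneg_right hAB hF0.le).trans ?_
  rcases (minSq_nonneg B).eq_or_lt with h0 | h0
  · rw [← h0, zero_mul]; exact gammaK_nonneg _ (by omega)
  set m := minSq B with hm
  have hB0 : B.det ≠ 0 := by
    intro h; rw [h, abs_zero] at hB; exact zero_ne_one hB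
  have hmn : m ≤ n := by
    have h1 := inv_le_gamma hn B hB0
    unfold inv at h1
    rw [hB, Real.one_rpow, div_one] at h1
    exact h1.trans (gamma_le hn)
  have hsm : 0 < Real.sqrt m := Real.sqrt_pos.2 h0
  set t : ℝ := (((K : ℝ) + 1) / (2 * Real.sqrt m)) ^ ((1 : ℝ) / ((n : ℝ) + 1)) with ht
  have ht0 : 0 < t := by rw [ht]; positivity
  have htn : t ^ (n + 1) * (2 * Real.sqrt m) = (K : ℝ) + 1 := by
    rw [ht, ← Real.rpow_natCast, ← Real.rpow_mul (by positivity)]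
    have : (1 : ℝ) / ((n : ℝ) + 1) * ((n + 1 : ℕ) : ℝ) = 1 := by push_cast; field_simp
    rw [this, Real.rpow_one, div_mul_cancel₀ _ (by positivity)]
  have hcount : nShort (dilute B t) (t ^ 2 * m) ≤ K := by
    refine nShort_dilute B ht0 le_rfl (le_of_eq ?_)
    rw [Real.sqrt_mul (by positivity), Real.sqrt_sq ht0.le, ← htn]
    ring
  have hdet : |(dilute B t).det| = 1 := by rw [dilute_det B ht0, hB]
  have hdet0 : (dilute B t).det ≠ 0 := by rw [dilute_det B ht0]; exact hB0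
  refine le_trans ?_ ((le_minSqK (by omega) _ hdet0 hcount).trans
    (minSqK_le_gammaK K (by omega) _ hdet))
  have hFt : F ≤ t ^ 2 := by
    have h1 : t ^ 2 = (((K : ℝ) + 1) / (2 * Real.sqrt m)) ^ ((2 : ℝ) / ((n : ℝ) + 1)) := by
      rw [ht, ← Real.rpow_natCast, ← Real.rpow_mul (by positivity)]
      congr 1; push_cast; ring
    rw [h1, hF]
    refine Real.rpow_le_rpow (by positivity) ?_ (by positivity)
    have : Real.sqrt m ≤ Real.sqrt n := Real.sqrt_le_sqrt hmn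
    gcongr
  calc m * F ≤ m * t ^ 2 := mul_le_mul_of_nonneg_left hFt h0.le
    _ = t ^ 2 * m := mul_comm _ _

end Pool.Agent.Lib.MP_ef2672_gt_Tauber
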