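import Pool.Agent.Lib.MP_ef2672_gt_Tauber.Dilute

/-!
The scaling law for the relaxed Hermite constants and the single scale criterion.
-/

namespace Pool.Agent.Lib.MP_ef2672_gt_Tauber

open Filter Topology

lemma factor_tendsto' {K : ℕ → ℕ} {κ : ℝ}
    (hK : Tendsto (fun n : ℕ => Real.log (K n) / n) atTop (𝓝 κ)) :
    Tendsto (fun n : ℕ => ((max 1 (K n) : ℕ) : ℝ) ^ ((2 : ℝ) / n)) atTop
      (𝓝 (Real.exp (2 * κ))) := by
  have h1 : (fun n : ℕ => ((max 1 (K n) : ℕ) : ℝ) ^ ((2 : ℝ) / n)) =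
      fun n : ℕ => Real.exp (2 * (Real.log (K n) / n)) := by
    ext n
    have hlog : Real.log (K n) = Real.log ((max 1 (K n) : ℕ) : ℝ) := by
      rcases Nat.eq_zero_or_pos (K n) with h | h
      · rw [h]; simp
      · rw [max_eq_right h]
    have hpos : (0 : ℝ) < ((max 1 (K n) : ℕ) : ℝ) := by
      exact_mod_cast lt_of_lt_of_le one_pos (le_max_left 1 (K n))
    rw [Real.rpow_def_of_pos hpos, hlog]
    congr 1
    ring
  rw [h1]
  have h3 : Tendsto (fun n : ℕ => 2 * (Real.log (K n) / n)) atTop (𝓝 (2 * κ)) := hK.const_mul 2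
  exact (Real.continuous_exp.tendsto _).comp h3

/-- The constant factor lost in `gammaK_ge`. -/
noncomputable def lossG (n : ℕ) : ℝ :=
  ((n : ℝ) / ((n : ℝ) + 1)) * (1 / (2 * Real.sqrt n)) ^ ((2 : ℝ) / ((n : ℝ) + 1))

lemma lossG_tendsto : Tendsto lossG atTop (𝓝 1) := by
  have h1 : Tendsto (fun n : ℕ => (n : ℝ) / ((n : ℝ) + 1)) atTop (𝓝 1) :=
    tendsto_natCast_div_add_atTop (1 : ℝ)
  have h2 : Tendsto (fun n : ℕ => (1 / (2 * Real.sqrt n)) ^ ((2 : ℝ) / ((n : ℝ) + 1)))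
      atTop (𝓝 1) := by
    -- take logarithms
    have h3 : Tendsto (fun x : ℝ => Real.log x / x) atTop (𝓝 0) := by
      have := Real.isLittleO_log_id_atTop.tendsto_div_nhds_zero
      simpa using this
    have h4 : Tendsto (fun n : ℕ => Real.log ((n : ℝ) + 1) / ((n : ℝ) + 1)) atTop (𝓝 0) := by
      have h5 : Tendsto (fun n : ℕ => (n : ℝ) + 1) atTop atTop :=
        tendsto_atTop_add_const_right _ _ tendsto_natCast_atTop_atTop
      exact h3.comp h5
    have h6 : Tendsto (fun n : ℕ => Real.log 4 / ((n : ℝ) + 1)) atTop (𝓝 0) := by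
      have h5 : Tendsto (fun n : ℕ => (n : ℝ) + 1) atTop atTop :=
        tendsto_atTop_add_const_right _ _ tendsto_natCast_atTop_atTop
      exact tendsto_const_nhds.div_atTop h5
    have h7 : Tendsto (fun n : ℕ => Real.exp (-(Real.log 4 / ((n : ℝ) + 1)
        + Real.log ((n : ℝ) + 1) / ((n : ℝ) + 1)))) atTop (𝓝 1) := by
      have h8 : Tendsto (fun n : ℕ => -(Real.log 4 / ((n : ℝ) + 1)
        + Real.log ((n : ℝ) + 1) / ((n : ℝ) + 1))) atTop (𝓝 (-(0 + 0))) := (h6.add h4).neg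
      have h9 := (Real.continuous_exp.tendsto _).comp h8
      rw [add_zero, neg_zero, Real.exp_zero] at h9
      exact h9
    have h10 : Tendsto (fun _ : ℕ => (1 : ℝ)) atTop (𝓝 1) := tendsto_const_nhds
    refine tendsto_of_tendsto_of_tendsto_of_le_of_le' h7 h10 ?_ ?_
    · filter_upwards [eventually_gt_atTop 0] with n hn
      have hn0 : (1 : ℝ) ≤ n := by exact_mod_cast hn
      have hs : 1 ≤ Real.sqrt n := Real.one_le_sqrt.2 hn0
      rw [Real.rpow_def_of_pos (by positivity)]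
      refine Real.exp_le_exp.2 ?_
      rw [one_div, Real.log_inv, Real.log_mul (by norm_num) (by positivity), Real.log_sqrt (by positivity)]
      have e1 : Real.log 4 = 2 * Real.log 2 := by
        rw [show (4 : ℝ) = 2 ^ 2 by norm_num, Real.log_pow]; norm_num
      have e2 : Real.log n ≤ Real.log ((n : ℝ) + 1) :=
        Real.log_le_log (by positivity) (by linarith)
      have e3 : -(Real.log 2 + Real.log n / 2) * (2 / ((n : ℝ) + 1)) =
          -(Real.log 4 / ((n : ℝ) + 1) + Real.log n / ((n : ℝ) + 1)) := by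
        rw [e1]; ring
      rw [e3, neg_le_neg_iff]
      gcongr
    · filter_upwards [eventually_gt_atTop 0] with n hn
      have hn0 : (1 : ℝ) ≤ n := by exact_mod_cast hn
      have hs : 1 ≤ Real.sqrt n := Real.one_le_sqrt.2 hn0
      refine Real.rpow_le_one (by positivity) ?_ (by positivity)
      rw [div_le_one (by positivity)]
      linarith
  have h3 := h1.mul h2
  rw [mul_one] at h3
  exact h3

/-- The scaling law: ignoring `e^{κ n + o(n)}` short vectors multiplies the limit by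
`e^{2 κ}`. -/
theorem scaling_law {K : ℕ → ℕ} {κ : ℝ}
    (hK : Tendsto (fun n : ℕ => Real.log (K n) / n) atTop (𝓝 κ)) (l : ℝ) :
    Tendsto (fun n : ℕ => gammaK (K n) n / n) atTop (𝓝 (Real.exp (2 * κ) * l)) ↔
      Tendsto c atTop (𝓝 l) := by
  have hf := factor_tendsto' hK
  have hE : Real.exp (2 * κ) ≠ 0 := (Real.exp_pos _).ne'
  have hf1 : Tendsto (fun n : ℕ => ((max 1 (K (n + 1)) : ℕ) : ℝ) ^ ((2 : ℝ) / ((n + 1 : ℕ) : ℝ)))
      atTop (𝓝 (Real.exp (2 * κ))) := hf.comp (tendsto_add_atTop_nat 1)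
  have hfpos : ∀ n : ℕ, (0 : ℝ) < ((max 1 (K n) : ℕ) : ℝ) ^ ((2 : ℝ) / n) := fun n => by
    refine Real.rpow_pos_of_pos ?_ _
    exact_mod_cast lt_of_lt_of_le one_pos (le_max_left 1 (K n))
  have hup : ∀ᶠ n : ℕ in atTop,
      gammaK (K n) n / n ≤ c n * ((max 1 (K n) : ℕ) : ℝ) ^ ((2 : ℝ) / n) := by
    filter_upwards [eventually_gt_atTop 0] with n hn
    unfold c
    calc gammaK (K n) n / n ≤ (gamma n * ((max 1 (K n) : ℕ) : ℝ) ^ ((2 : ℝ) / n)) / n :=
          div_le_div_of_nonneg_right (gammaK_le _ hn) (Nat.cast_nonneg n)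
      _ = _ := by ring
  have hlow : ∀ᶠ n : ℕ in atTop,
      c n * (((max 1 (K (n + 1)) : ℕ) : ℝ) ^ ((2 : ℝ) / ((n + 1 : ℕ) : ℝ)) * lossG n) ≤
        gammaK (K (n + 1)) (n + 1) / ((n + 1 : ℕ) : ℝ) := by
    filter_upwards [eventually_gt_atTop 0] with n hn
    have hn0 : (0 : ℝ) < n := by exact_mod_cast hn
    have hsn : 0 < Real.sqrt n := Real.sqrt_pos.2 hn0
    have h1 := gammaK_ge (K (n + 1)) hn
    have h2 : (((max 1 (K (n + 1)) : ℕ) : ℝ)) ^ ((2 : ℝ) / ((n + 1 : ℕ) : ℝ)) *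
        (1 / (2 * Real.sqrt n)) ^ ((2 : ℝ) / ((n : ℝ) + 1)) ≤
        (((K (n + 1) : ℝ) + 1) / (2 * Real.sqrt n)) ^ ((2 : ℝ) / ((n : ℝ) + 1)) := by
      have e : ((n + 1 : ℕ) : ℝ) = (n : ℝ) + 1 := by push_cast; ring
      rw [e, ← Real.mul_rpow (by positivity) (by positivity)]
      refine Real.rpow_le_rpow (by positivity) ?_ (by positivity)
      rw [mul_one_div]
      refine div_le_div_of_nonneg_right ?_ (by positivity)
      have : max 1 (K (n + 1)) ≤ K (n + 1) + 1 := by omega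
      exact_mod_cast this
    have h3 : c n * (((max 1 (K (n + 1)) : ℕ) : ℝ) ^ ((2 : ℝ) / ((n + 1 : ℕ) : ℝ)) * lossG n) =
        (gamma n * ((((max 1 (K (n + 1)) : ℕ) : ℝ)) ^ ((2 : ℝ) / ((n + 1 : ℕ) : ℝ)) *
        (1 / (2 * Real.sqrt n)) ^ ((2 : ℝ) / ((n : ℝ) + 1)))) / ((n + 1 : ℕ) : ℝ) := by
      unfold c lossG
      push_cast
      field_simp
    rw [h3]
    refine div_le_div_of_nonneg_right ?_ (by positivity)
    exact (mul_le_mul_of_nonneg_left h2 (gamma_nonneg n)).trans h1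
  have hloss := lossG_tendsto
  constructor
  · intro h
    have h1 : Tendsto (fun n : ℕ => (gammaK (K n) n / n) /
        (((max 1 (K n) : ℕ) : ℝ) ^ ((2 : ℝ) / n))) atTop (𝓝 l) := by
      have h2 := h.div hf hE
      rw [mul_div_cancel_left₀ _ hE] at h2
      exact h2
    have h2 : Tendsto (fun n : ℕ => (gammaK (K (n + 1)) (n + 1) / ((n + 1 : ℕ) : ℝ)) /
        (((max 1 (K (n + 1)) : ℕ) : ℝ) ^ ((2 : ℝ) / ((n + 1 : ℕ) : ℝ)) * lossG n))
        atTop (𝓝 l) := by
      have h3 : Tendsto (fun n : ℕ => gammaK (K (n + 1)) (n + 1) / ((n + 1 : ℕ) : ℝ)) atTop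
          (𝓝 (Real.exp (2 * κ) * l)) := h.comp (tendsto_add_atTop_nat 1)
      have h4 := h3.div (hf1.mul hloss) (by rw [mul_one]; exact hE)
      rw [mul_one, mul_div_cancel_left₀ _ hE] at h4
      exact h4
    refine tendsto_of_tendsto_of_tendsto_of_le_of_le' h1 h2 ?_ ?_
    · filter_upwards [hup] with n hn
      rw [div_le_iff₀ (hfpos n)]
      exact hn
    · have hl0 : ∀ᶠ n : ℕ in atTop, 0 < lossG n := by
        filter_upwards [hloss.eventually (lt_mem_nhds one_pos)] with n hn using hn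
      filter_upwards [hlow, hl0] with n hn h0
      rw [le_div_iff₀ (mul_pos (hfpos (n + 1)) h0)]
      exact hn
  · intro h
    have h1 : Tendsto (fun n : ℕ => c n * (((max 1 (K n) : ℕ) : ℝ) ^ ((2 : ℝ) / n)))
        atTop (𝓝 (Real.exp (2 * κ) * l)) := by
      have h2 := h.mul hf
      rw [mul_comm l] at h2
      exact h2
    have h2 : Tendsto (fun n : ℕ => c n *
        (((max 1 (K (n + 1)) : ℕ) : ℝ) ^ ((2 : ℝ) / ((n + 1 : ℕ) : ℝ)) * lossG n))
        atTop (𝓝 (Real.exp (2 * κ) * l)) := by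
      have h3 := h.mul (hf1.mul hloss)
      rw [mul_one, mul_comm l] at h3
      exact h3
    rw [← tendsto_add_atTop_iff_nat 1]
    refine tendsto_of_tendsto_of_tendsto_of_le_of_le' h2
      (h1.comp (tendsto_add_atTop_nat 1)) hlow ?_
    exact (tendsto_add_atTop_nat 1).eventually hup

end Pool.Agent.Lib.MP_ef2672_gt_Tauber
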