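import Pool.Agent.Lib.MP_ef2672_gt_Tauber.Scaling

/-!
The single scale criterion.
-/

namespace Pool.Agent.Lib.MP_ef2672_gt_Tauber

open Filter Topology

lemma one_add_inv_pow_le (n : ℕ) (hn : 0 < n) : (((n : ℝ) + 1) / n) ^ n ≤ 4 := by
  have hn0 : (0 : ℝ) < n := by exact_mod_cast hn
  have h1 : ((n : ℝ) + 1) / n ≤ Real.exp (1 / n) := by
    have h := Real.add_one_le_exp ((1 : ℝ) / n)
    have e : ((n : ℝ) + 1) / n = 1 / n + 1 := by rw [add_div, div_self hn0.ne', add_comm]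
    rw [e]; exact h
  calc (((n : ℝ) + 1) / n) ^ n ≤ Real.exp (1 / n) ^ n := by gcongr
    _ = Real.exp 1 := by
        rw [← Real.exp_nat_mul]
        congr 1
        field_simp
    _ ≤ 4 := by have := Real.exp_one_lt_d9; linarith

lemma sqrt_le_add_one {r : ℝ} (hr : 0 ≤ r) : Real.sqrt r ≤ r + 1 := by
  have h := Real.sq_sqrt hr
  nlinarith [sq_nonneg (Real.sqrt r - 1)]

theorem single_scale {l ρ : ℝ} (hl : 0 < l) (hρ : l < ρ) :
    (∀ ρ' : ℝ, l < ρ' → ∀ᶠ n : ℕ in atTop, c n < ρ') ↔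
      ∀ ε : ℝ, 0 < ε → ∀ᶠ n : ℕ in atTop, ∀ A : Matrix (Fin n) (Fin n) ℝ,
        |A.det| = 1 → (ρ / l) ^ ((n : ℝ) / 2) * Real.exp (-(ε * n)) ≤ nShort A (ρ * n) := by
  constructor
  · intro h ε hε
    exact (counts_iff hl).1 h ρ ε hρ hε
  intro h ρ' hρ'
  have hρ0 : 0 < ρ := hl.trans hρ
  obtain ⟨m, hm1, hm2⟩ := exists_between (lt_min hρ' hρ)
  have hmρ' : m < ρ' := lt_of_lt_of_le hm2 (min_le_left _ _)
  have hmρ : m < ρ := lt_of_lt_of_le hm2 (min_le_right _ _)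
  have hm0 : 0 < m := hl.trans hm1
  set ε : ℝ := Real.log (m / l) / 4 with hε
  have hlog : 0 < Real.log (m / l) := Real.log_pos ((one_lt_div hl).2 hm1)
  have hε0 : 0 < ε := by rw [hε]; positivity
  obtain ⟨N, hN⟩ := exists_nat_gt (2 * (12 * ρ + 5) / ε ^ 2)
  have hev : ∀ᶠ n : ℕ in atTop, ∀ A : Matrix (Fin (n + 1)) (Fin (n + 1)) ℝ,
      |A.det| = 1 → (ρ / l) ^ (((n + 1 : ℕ) : ℝ) / 2) * Real.exp (-(ε * ((n + 1 : ℕ) : ℝ))) ≤
        nShort A (ρ * ((n + 1 : ℕ) : ℝ)) :=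
    (tendsto_add_atTop_nat 1).eventually (h ε hε0)
  filter_upwards [hev, eventually_ge_atTop (N + 2)] with n hA hnN
  by_contra hcon
  have hcon' : ρ' ≤ c n := not_lt.1 hcon
  have hn : 0 < n := by omega
  have hn0 : (0 : ℝ) < n := by exact_mod_cast hn
  have hg : m * n < gamma n := by
    unfold c at hcon'
    rw [le_div_iff₀ hn0] at hcon'
    nlinarith
  have := nonempty_mat n
  obtain ⟨A, hA1⟩ := exists_lt_of_lt_ciSup (show m * n < ⨆ A : {A : Matrix (Fin n) (Fin n) ℝ //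
    A.det ≠ 0}, inv A.1 from hg)
  obtain ⟨B, hB, hAB⟩ := exists_normalise hn A.1 A.2
  have hmB : m * n < minSq B := lt_of_lt_of_le hA1 hAB
  set t : ℝ := Real.sqrt (ρ * ((n + 1 : ℕ) : ℝ) / (m * n)) with ht
  have ht0 : 0 < t := Real.sqrt_pos.2 (by positivity)
  have ht2 : t ^ 2 = ρ * ((n + 1 : ℕ) : ℝ) / (m * n) := Real.sq_sqrt (by positivity)
  set r : ℝ := ρ * ((n + 1 : ℕ) : ℝ) with hr
  have hr0 : 0 < r := by rw [hr]; positivity
  have hrt : r ≤ t ^ 2 * minSq B := by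
    rw [ht2]
    have : ρ * ((n + 1 : ℕ) : ℝ) / (m * n) * (m * n) ≤ ρ * ((n + 1 : ℕ) : ℝ) / (m * n) * minSq B :=
      mul_le_mul_of_nonneg_left hmB.le (by positivity)
    rwa [div_mul_cancel₀ _ (by positivity)] at this
  set K : ℕ := ⌊2 * (Real.sqrt r * t ^ n)⌋₊ with hK
  have hK1 : 2 * (Real.sqrt r * t ^ n) ≤ K + 1 := (Nat.lt_floor_add_one _).le
  have hK2 : (K : ℝ) ≤ 2 * (Real.sqrt r * t ^ n) := Nat.floor_le (by positivity)
  have hcount := nShort_dilute B ht0 hrt hK1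
  have hdet : |(dilute B t).det| = 1 := by rw [dilute_det B ht0, hB]
  have h1 := hA _ hdet
  have h2 : (ρ / l) ^ (((n + 1 : ℕ) : ℝ) / 2) * Real.exp (-(ε * ((n + 1 : ℕ) : ℝ))) ≤
      2 * (Real.sqrt r * t ^ n) := by
    refine h1.trans (le_trans ?_ hK2)
    exact_mod_cast hcount
  -- bound `t ^ n`
  have ht3 : t ^ n ≤ 2 * (ρ / m) ^ ((n : ℝ) / 2) := by
    have h3 : (t ^ n) ^ 2 ≤ (2 * (ρ / m) ^ ((n : ℝ) / 2)) ^ 2 := by
      rw [← pow_mul, mul_comm n 2, pow_mul, ht2, mul_pow, ← Real.rpow_natCast (_ ^ _) 2,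
        ← Real.rpow_mul (by positivity)]
      have e1 : (n : ℝ) / 2 * ((2 : ℕ) : ℝ) = n := by push_cast; ring
      rw [e1, Real.rpow_natCast]
      have e2 : ρ * ((n + 1 : ℕ) : ℝ) / (m * n) = (ρ / m) * (((n : ℝ) + 1) / n) := by
        push_cast; field_simp
      rw [e2, mul_pow]
      have := one_add_inv_pow_le n hn
      have h4 : (0 : ℝ) ≤ (ρ / m) ^ n := by positivity
      nlinarith
    exact le_of_sq_le_sq h3 (by positivity)
  have hP : 0 < (ρ / m) ^ ((n : ℝ) / 2) := by positivity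
  have h3 : (ρ / l) ^ (((n + 1 : ℕ) : ℝ) / 2) * Real.exp (-(ε * ((n + 1 : ℕ) : ℝ))) ≤
      4 * Real.sqrt r * (ρ / m) ^ ((n : ℝ) / 2) := by
    refine h2.trans ?_
    have := mul_le_mul_of_nonneg_left ht3 (Real.sqrt_nonneg r)
    nlinarith
  have h4 : Real.exp (ε * ((n : ℝ) - 1)) * (ρ / m) ^ ((n : ℝ) / 2) ≤
      (ρ / l) ^ (((n + 1 : ℕ) : ℝ) / 2) * Real.exp (-(ε * ((n + 1 : ℕ) : ℝ))) := by
    have h5 : (ρ / l) ^ ((n : ℝ) / 2) ≤ (ρ / l) ^ (((n + 1 : ℕ) : ℝ) / 2) := by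
      refine Real.rpow_le_rpow_of_exponent_le ((one_lt_div hl).2 hρ).le ?_
      push_cast; linarith
    refine le_trans (le_of_eq ?_) (mul_le_mul_of_nonneg_right h5 (Real.exp_pos _).le)
    have h6 : ρ / l = (m / l) * (ρ / m) := by field_simp
    have h7 : (m / l) ^ ((n : ℝ) / 2) = Real.exp (2 * ε * n) := by
      rw [Real.rpow_def_of_pos (by positivity)]
      congr 1
      rw [hε]; ring
    rw [h6, Real.mul_rpow (by positivity) (by positivity), h7]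
    rw [mul_right_comm, ← Real.exp_add]
    congr 2
    push_cast; ring
  have h5 : Real.exp (ε * ((n : ℝ) - 1)) ≤ 4 * Real.sqrt r := by
    have := h4.trans h3
    exact le_of_mul_le_mul_right this hP
  -- growth
  set y : ℝ := (n : ℝ) - 1 with hy
  have hyN : (N : ℝ) < y := by
    have : ((N + 2 : ℕ) : ℝ) ≤ n := by exact_mod_cast hnN
    push_cast at this
    rw [hy]; linarith
  have hy1 : 1 ≤ y := by
    have : ((N + 2 : ℕ) : ℝ) ≤ n := by exact_mod_cast hnN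
    push_cast at this
    have hN0 : (0 : ℝ) ≤ N := Nat.cast_nonneg N
    rw [hy]; linarith
  have h6 : Real.sqrt r ≤ r + 1 := sqrt_le_add_one hr0.le
  have h7 : r ≤ 3 * ρ * y := by
    have e : ((n + 1 : ℕ) : ℝ) ≤ 3 * y := by rw [hy]; push_cast; rw [hy] at hy1; linarith
    have := mul_le_mul_of_nonneg_left e hρ0.le
    calc r = ρ * ((n + 1 : ℕ) : ℝ) := hr
      _ ≤ ρ * (3 * y) := this
      _ = 3 * ρ * y := by ring
  have h8 := Real.quadratic_le_exp_of_nonneg (show 0 ≤ ε * y by positivity)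
  have h9 : 2 * (12 * ρ + 5) < ε ^ 2 * y := by
    have : 2 * (12 * ρ + 5) / ε ^ 2 < y := hN.trans hyN
    rw [div_lt_iff₀ (by positivity)] at this
    linarith
  have h10 : 2 * (12 * ρ + 5) * y < ε ^ 2 * y * y := mul_lt_mul_of_pos_right h9 (by linarith)
  have h11 : 0 ≤ ε * y := by positivity
  have h12 : (ε * y) ^ 2 / 2 = ε ^ 2 * y * y / 2 := by ring
  have h13 : 2 * (12 * ρ + 5) * y = 24 * (ρ * y) + 10 * y := by ring
  have h14 : 3 * ρ * y = 3 * (ρ * y) := by ring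
  rw [h12] at h8
  linarith

/-- The criterion in terms of the upper limit. -/
theorem limsup_le_iff' {l ρ : ℝ} (hl : 0 < l) (hρ : l < ρ) :
    limsup c atTop ≤ l ↔
      ∀ ε : ℝ, 0 < ε → ∀ᶠ n : ℕ in atTop, ∀ A : Matrix (Fin n) (Fin n) ℝ,
        |A.det| = 1 → (ρ / l) ^ ((n : ℝ) / 2) * Real.exp (-(ε * n)) ≤ nShort A (ρ * n) := by
  rw [← single_scale hl hρ]
  have h1 : IsBoundedUnder (· ≤ ·) atTop c :=
    isBoundedUnder_of ⟨1, fun n => (bounds_c n).2⟩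
  have h2 : IsCoboundedUnder (· ≤ ·) atTop c :=
    (isBoundedUnder_of ⟨0, fun n => (bounds_c n).1⟩ : IsBoundedUnder (· ≥ ·) atTop c).isCoboundedUnder_le
  exact Filter.limsup_le_iff h2 h1

end Pool.Agent.Lib.MP_ef2672_gt_Tauber
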