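import Pool.Agent.Lib.MP_ef2672_gt_Tauber.Super

/-!
Tauberian consequences of slow decrease.
-/

namespace Pool.Agent.Lib.MP_ef2672_gt_Tauber

open Filter Topology

/-- Slow decrease of a real sequence. -/
def SlowDecrease (u : ℕ → ℝ) : Prop :=
  ∀ δ : ℝ, 0 < δ → ∃ ε : ℝ, 0 < ε ∧ ∀ n m : ℕ, 0 < n → (m : ℝ) ≤ ε * n → u n - δ ≤ u (n + m)

/-- If a slowly decreasing sequence converges along a set meeting all long multiplicative blocks,
then it converges. -/
theorem tendsto_of_dense {u : ℕ → ℝ} (hu : SlowDecrease u) (S : Set ℕ) (l : ℝ)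
    (hS : ∀ ε : ℝ, 0 < ε → ∀ᶠ n : ℕ in atTop, ∃ s ∈ S, n ≤ s ∧ (s : ℝ) ≤ (1 + ε) * n)
    (hl : Tendsto u (atTop ⊓ 𝓟 S) (𝓝 l)) : Tendsto u atTop (𝓝 l) := by
  rw [Metric.tendsto_nhds]
  intro δ hδ
  have hl' : ∀ᶠ n in atTop, n ∈ S → |u n - l| < δ / 3 := by
    have := (Metric.tendsto_nhds.1 hl) (δ / 3) (by positivity)
    rw [eventually_inf_principal] at this
    simpa [Real.dist_eq] using this
  obtain ⟨ε, hε, hsd⟩ := hu (δ / 3) (by positivity)
  obtain ⟨N1, hN1⟩ := eventually_atTop.1 hl'
  -- upper bound: look at the next element of `S`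
  have hup : ∀ᶠ n : ℕ in atTop, u n ≤ l + 2 * δ / 3 := by
    filter_upwards [hS ε hε, eventually_ge_atTop N1, eventually_gt_atTop 0] with n h1 h2 h3
    obtain ⟨s, hs, hns, hsn⟩ := h1
    obtain ⟨m, rfl⟩ := Nat.exists_eq_add_of_le hns
    have h4 := hsd n m h3 (by push_cast at hsn; linarith)
    have h5 := hN1 (n + m) (by omega) hs
    rw [abs_lt] at h5
    linarith
  -- lower bound: look at a previous element of `S`
  set η : ℝ := min ε 1 / 2 with hη
  have hη0 : 0 < η := by positivity
  have hη1 : η ≤ 1 / 2 := by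
    have := min_le_right ε 1
    rw [hη]; linarith
  have hηε : 2 * η ≤ ε := by
    have := min_le_left ε 1
    rw [hη]; linarith
  have hlow : ∀ᶠ n : ℕ in atTop, l - 2 * δ / 3 ≤ u n := by
    -- start from `k = ⌊n / (1 + η)⌋`
    have hfl : Tendsto (fun n : ℕ => ⌊(n : ℝ) / (1 + η)⌋₊) atTop atTop := by
      refine tendsto_nat_floor_atTop.comp ?_
      exact (tendsto_natCast_atTop_atTop).atTop_div_const (by positivity)
    have h2 := hfl.eventually (hS η hη0)
    have h3 := hfl.eventually (eventually_ge_atTop N1)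
    have h4 := hfl.eventually (eventually_gt_atTop 0)
    have h5 : ∀ᶠ n : ℕ in atTop, (2 : ℝ) / η ≤ ⌊(n : ℝ) / (1 + η)⌋₊ := by
      have := hfl.eventually (eventually_ge_atTop ⌈(2 : ℝ) / η⌉₊)
      filter_upwards [this] with n hn
      exact (Nat.le_ceil _).trans (by exact_mod_cast hn)
    filter_upwards [h2, h3, h4, h5] with n h2 h3 h4 h5
    obtain ⟨s, hs, hks, hsk⟩ := h2
    set k := ⌊(n : ℝ) / (1 + η)⌋₊ with hk
    have hk1 : (k : ℝ) ≤ (n : ℝ) / (1 + η) := Nat.floor_le (by positivity)
    have hk2 : (n : ℝ) / (1 + η) < k + 1 := Nat.lt_floor_add_one _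
    rw [le_div_iff₀ (by positivity)] at hk1
    rw [div_lt_iff₀ (by positivity)] at hk2
    have hsn : (s : ℝ) ≤ n := by linarith
    have hsn' : s ≤ n := by exact_mod_cast hsn
    obtain ⟨m, rfl⟩ := Nat.exists_eq_add_of_le hsn'
    have hks' : (k : ℝ) ≤ s := by exact_mod_cast hks
    have h6 : (m : ℝ) ≤ ε * s := by
      push_cast at hk2
      have h7 : (1 + η) ≤ η * k := by
        rw [div_le_iff₀ hη0] at h5
        linarith
      have h8 : (m : ℝ) ≤ 2 * η * k := by nlinarith
      calc (m : ℝ) ≤ 2 * η * k := h8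
        _ ≤ ε * s := by
          have : 0 ≤ (k : ℝ) := by positivity
          nlinarith
    have h7 := hsd s m (by omega) h6
    have h8 := hN1 s (by omega) hs
    rw [abs_lt] at h8
    linarith
  filter_upwards [hup, hlow] with n h1 h2
  rw [Real.dist_eq, abs_lt]
  constructor <;> linarith

/-- The cluster points of a bounded slowly decreasing sequence form the interval between its
lower and upper limits. -/
theorem clusterPt_iff {u : ℕ → ℝ} (hu : SlowDecrease u) (hb : ∀ n, 0 ≤ u n ∧ u n ≤ 1) (x : ℝ) :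
    MapClusterPt x atTop u ↔ x ∈ Set.Icc (liminf u atTop) (limsup u atTop) := by
  have hbd1 : IsBoundedUnder (· ≥ ·) atTop u := ⟨0, by simp [hb]⟩
  have hbd2 : IsBoundedUnder (· ≤ ·) atTop u := ⟨1, by simp [hb]⟩
  have hcb1 : IsCoboundedUnder (· ≥ ·) atTop u := hbd2.isCoboundedUnder_ge
  have hcb2 : IsCoboundedUnder (· ≤ ·) atTop u := hbd1.isCoboundedUnder_le
  have hfreq : MapClusterPt x atTop u ↔ ∀ δ : ℝ, 0 < δ → ∃ᶠ n in atTop, |u n - x| < δ := by
    rw [mapClusterPt_iff_frequently]
    constructor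
    · intro h δ hδ
      have := h _ (Metric.ball_mem_nhds x hδ)
      simpa [Real.dist_eq] using this
    · intro h s hs
      obtain ⟨δ, hδ, hsub⟩ := Metric.mem_nhds_iff.1 hs
      refine (h δ hδ).mono fun n hn => hsub ?_
      simpa [Real.dist_eq] using hn
  rw [hfreq]
  constructor
  · intro h
    constructor
    · refine le_of_forall_pos_le_add fun δ hδ => ?_
      refine liminf_le_of_frequently_le ((h δ hδ).mono fun n hn => ?_) hbd1
      rw [abs_lt] at hn; linarith
    · refine le_of_forall_pos_le_add fun δ hδ => ?_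
      rw [← sub_le_iff_le_add]
      refine le_limsup_of_frequently_le ((h δ hδ).mono fun n hn => ?_) hbd2
      rw [abs_lt] at hn; linarith
  · rintro ⟨h1, h2⟩ δ hδ
    by_contra hcon
    rw [not_frequently] at hcon
    obtain ⟨ε, hε, hsd⟩ := hu δ hδ
    have hbig : ∀ᶠ n : ℕ in atTop, (1 : ℝ) ≤ ε * n := by
      have : Tendsto (fun n : ℕ => ε * (n : ℝ)) atTop atTop :=
        tendsto_natCast_atTop_atTop.const_mul_atTop hε
      exact this.eventually_ge_atTop 1
    obtain ⟨N, hN⟩ := eventually_atTop.1 ((hcon.and hbig).and (eventually_gt_atTop 0))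
    have hup : ∃ᶠ n in atTop, x - δ < u n := by
      refine frequently_lt_of_lt_limsup hcb2 ?_
      linarith
    have hlo : ∃ᶠ n in atTop, u n < x + δ := by
      refine frequently_lt_of_liminf_lt hcb1 ?_
      linarith
    obtain ⟨n1, hn1, hun1⟩ := (frequently_atTop.1 hup) N
    obtain ⟨n2, hn2, hun2⟩ := (frequently_atTop.1 hlo) n1
    have hn1' : x + δ ≤ u n1 := by
      have := (hN n1 hn1).1.1
      by_contra hcon'
      push Not at hcon'
      exact this (abs_lt.2 ⟨by linarith, by linarith⟩)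
    -- the sequence stays above from `n1` on
    have hstay : ∀ k, x + δ ≤ u (n1 + k) := by
      intro k
      induction k with
      | zero => exact hn1'
      | succ k ih =>
        have h3 := (hN (n1 + k) (by omega))
        have h4 := hsd (n1 + k) 1 h3.2 (by push_cast at *; exact_mod_cast h3.1.2)
        have h5 := (hN (n1 + k + 1) (by omega)).1.1
        by_contra hcon'
        push Not at hcon'
        rw [← add_assoc] at hcon'
        exact h5 (abs_lt.2 ⟨by linarith, by linarith⟩)
    obtain ⟨k, rfl⟩ := Nat.exists_eq_add_of_le hn2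
    have := hstay k
    linarith

/-- For a slowly decreasing sequence Cesàro convergence is equivalent to convergence. -/
theorem cesaro_iff {u : ℕ → ℝ} (hu : SlowDecrease u) (l : ℝ) :
    Tendsto (fun N : ℕ => (∑ n ∈ Finset.range N, u n) / N) atTop (𝓝 l) ↔
      Tendsto u atTop (𝓝 l) := by
  constructor
  swap
  · intro h
    have := h.cesaro
    refine this.congr fun N => ?_
    rw [inv_mul_eq_div]
  intro h
  rw [Metric.tendsto_nhds]
  intro δ₀ hδ₀
  set δ : ℝ := δ₀ / 3 with hδdef
  have hδ : 0 < δ := by positivity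
  obtain ⟨ε₁, hε₁, hsd⟩ := hu δ hδ
  set ε : ℝ := min ε₁ 1 with hεdef
  have hε : 0 < ε := by positivity
  have hε1 : ε ≤ 1 := min_le_right _ _
  have hεε : ε ≤ ε₁ := min_le_left _ _
  set η : ℝ := δ * ε / 16 with hη
  have hη0 : 0 < η := by positivity
  set A : ℕ → ℝ := fun N => ∑ n ∈ Finset.range N, u n with hA
  have hAev : ∀ᶠ N : ℕ in atTop, |A N - l * N| ≤ η * N := by
    have h1 := (Metric.tendsto_nhds.1 h) η hη0
    filter_upwards [h1, eventually_gt_atTop 0] with N h2 h3
    have hN : (0 : ℝ) < N := by exact_mod_cast h3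
    rw [Real.dist_eq] at h2
    have h4 : A N - l * N = ((∑ n ∈ Finset.range N, u n) / N - l) * N := by
      simp only [hA]; field_simp
    rw [h4, abs_mul, abs_of_pos hN]
    gcongr
  obtain ⟨N0, hN0⟩ := eventually_atTop.1 hAev
  have hbig : ∀ᶠ n : ℕ in atTop, 4 ≤ ε * n := by
    have : Tendsto (fun n : ℕ => ε * (n : ℝ)) atTop atTop :=
      tendsto_natCast_atTop_atTop.const_mul_atTop hε
    exact this.eventually_ge_atTop 4
  filter_upwards [hbig, eventually_ge_atTop (2 * N0), eventually_gt_atTop 0] with n h4 hn hn0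
  have hn0' : (0 : ℝ) < n := by exact_mod_cast hn0
  -- the block length
  set m : ℕ := ⌊ε / 2 * n⌋₊ with hm
  have hm1 : (m : ℝ) ≤ ε / 2 * n := Nat.floor_le (by positivity)
  have hm2 : ε / 2 * n < m + 1 := Nat.lt_floor_add_one _
  have hm3 : ε / 4 * n ≤ m := by linarith
  have hmn : (m : ℝ) ≤ n / 2 := by nlinarith
  have hmn' : 2 * m ≤ n := by
    have : (2 * m : ℝ) ≤ n := by linarith
    exact_mod_cast this
  have hm0 : (0 : ℝ) ≤ m := by positivity
  have hAn := hN0 n (by omega)
  have hAnm := hN0 (n + m) (by omega)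
  have hAnm' := hN0 (n - m) (by omega)
  rw [abs_le] at hAn hAnm hAnm'
  push_cast at hAnm
  have hcast : ((n - m : ℕ) : ℝ) = n - m := by
    rw [Nat.cast_sub (by omega)]
  rw [hcast] at hAnm'
  rw [Real.dist_eq, abs_lt]
  constructor
  · -- lower bound
    by_contra hcon
    push Not at hcon
    have h5 : ∀ k ∈ Finset.range m, u (n - m + k) ≤ l - 2 * δ := by
      intro k hk
      rw [Finset.mem_range] at hk
      have h6 := hsd (n - m + k) (m - k) (by omega) (by
        rw [Nat.cast_sub hk.le]
        push_cast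
        rw [hcast]
        have : (0 : ℝ) ≤ k := by positivity
        nlinarith)
      have h7 : n - m + k + (m - k) = n := by omega
      rw [h7] at h6
      linarith
    have h8 : A n - A (n - m) = ∑ k ∈ Finset.range m, u (n - m + k) := by
      simp only [hA]
      have h9 := Finset.sum_range_add u (n - m) m
      have h10 : n - m + m = n := by omega
      rw [h10] at h9
      rw [h9]; ring
    have h11 : ∑ k ∈ Finset.range m, u (n - m + k) ≤ m * (l - 2 * δ) := by
      refine (Finset.sum_le_sum h5).trans ?_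
      rw [Finset.sum_const, Finset.card_range, nsmul_eq_mul]
    nlinarith
  · by_contra hcon
    push Not at hcon
    have h5 : ∀ k ∈ Finset.range m, l + 2 * δ ≤ u (n + k) := by
      intro k hk
      rw [Finset.mem_range] at hk
      have hk' : (k : ℝ) ≤ m := by exact_mod_cast hk.le
      have h6 := hsd n k hn0 (by nlinarith)
      linarith
    have h8 : A (n + m) - A n = ∑ k ∈ Finset.range m, u (n + k) := by
      simp only [hA]
      rw [Finset.sum_range_add u n m]; ring
    have h11 : m * (l + 2 * δ) ≤ ∑ k ∈ Finset.range m, u (n + k) := by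
      refine le_trans ?_ (Finset.sum_le_sum h5)
      rw [Finset.sum_const, Finset.card_range, nsmul_eq_mul]
    nlinarith

end Pool.Agent.Lib.MP_ef2672_gt_Tauber
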